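import Pool.Agent.Lib_helper60.MonPP.Sigma2

/-!
# Majority is in monadic PP and not definable in monadic second-order logic
-/

namespace Pool.Agent.Lib_helper60.MonPP

variable {U B : Type}

lemma split_num {m1 m2 m' t : ℕ} (h : min (m1 + m2) (2 * t) = min m' (2 * t)) :
    ∃ m1' ≤ m', min m1 t = min m1' t ∧ min m2 t = min (m' - m1') t := by
  by_cases h1 : m1 + m2 < 2 * t
  · exact ⟨m1, by omega, rfl, by omega⟩
  · by_cases h2 : m1 < t
    · exact ⟨m1, by omega, rfl, by omega⟩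
    · by_cases h3 : m2 < t
      · exact ⟨m' - m2, by omega, by omega, by omega⟩
      · exact ⟨t, by omega, by omega, by omega⟩

/-- equality of colour counts up to a threshold -/
def CC {A A' Γ : Type} (t : ℕ) (γ : A → Γ) (γ' : A' → Γ) : Prop :=
  ∀ g, min (Set.ncard {x | γ x = g}) t = min (Set.ncard {x | γ' x = g}) t

lemma CC.symm {A A' Γ : Type} {t : ℕ} {γ : A → Γ} {γ' : A' → Γ} (h : CC t γ γ') :
    CC t γ' γ := fun g => (h g).symm

lemma CC.exists {A A' Γ : Type} [Finite A] [Finite A'] {t : ℕ} (ht : 0 < t) {γ : A → Γ}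
    {γ' : A' → Γ} (h : CC t γ γ') (x : A) : ∃ x', γ' x' = γ x := by
  have h1 := h (γ x)
  have h2 : 0 < Set.ncard {y | γ y = γ x} := (Set.ncard_pos (Set.toFinite _)).2 ⟨x, rfl⟩
  have h3 : 0 < Set.ncard {y | γ' y = γ x} := by omega
  obtain ⟨x', hx'⟩ := (Set.ncard_pos (Set.toFinite _)).1 h3
  exact ⟨x', hx'⟩

lemma CC.mono {A A' Γ : Type} {t t' : ℕ} (ht : t' ≤ t) {γ : A → Γ} {γ' : A' → Γ}
    (h : CC t γ γ') : CC t' γ γ' := fun g => by have := h g; omega

lemma CC.elt {A A' Γ : Type} [Finite A] [Finite A'] {t : ℕ} (ht : 0 < t) {γ : A → Γ}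
    {γ' : A' → Γ} (h : CC (2 * t) γ γ') {a : A} {a' : A'} (haa : γ' a' = γ a) :
    CC t (fun x => (γ x, x = a)) (fun x => (γ' x, x = a')) := by
  classical
  have aux : ∀ {A : Type} [Finite A] (γ : A → Γ) (a : A) (g : Γ) (b : Prop),
      Set.ncard {x | (γ x, x = a) = (g, b)} =
        if b then (if γ a = g then 1 else 0) else
          (Set.ncard {x | γ x = g} - (if γ a = g then 1 else 0)) := by
    intro A _ γ a g b
    by_cases hb : b
    · have hbT : b = True := propext ⟨fun _ => trivial, fun _ => hb⟩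
      subst hbT
      simp only [if_true]
      by_cases hg : γ a = g
      · rw [if_pos hg]
        have : {x | (γ x, x = a) = (g, True)} = {a} := by
          ext x
          simp only [Prod.mk.injEq, eq_iff_iff, iff_true, Set.mem_singleton_iff]
          exact ⟨fun h => h.2, fun h => ⟨h ▸ hg, h⟩⟩
        rw [this, Set.ncard_singleton]
      · rw [if_neg hg]
        have : {x | (γ x, x = a) = (g, True)} = ∅ := by
          ext x
          simp only [Prod.mk.injEq, eq_iff_iff, iff_true, Set.mem_empty_iff_false, iff_false]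
          rintro ⟨h1, h2⟩
          exact hg (h2 ▸ h1)
        rw [this, Set.ncard_empty]
    · have hbF : b = False := propext ⟨fun h => hb h, fun h => h.elim⟩
      subst hbF
      simp only [if_false]
      have hset : {x | (γ x, x = a) = (g, False)} = {x | γ x = g} \ {a} := by
        ext x
        simp only [Prod.mk.injEq, eq_iff_iff, iff_false, Set.mem_sdiff, Set.mem_singleton_iff]
        exact Iff.rfl
      rw [hset]
      by_cases hg : γ a = g
      · rw [if_pos hg, Set.ncard_sdiff_singleton_of_mem (by exact hg)]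
      · rw [if_neg hg, Set.sdiff_singleton_eq_self (by exact hg), Nat.sub_zero]
  rintro ⟨g, b⟩
  rw [aux γ a g b, aux γ' a' g b, haa]
  have h1 := h g
  by_cases hb : b
  · simp [hb]
  · simp only [hb, if_false]
    by_cases hg : γ a = g
    · simp only [hg, if_true]
      have h2 : 0 < Set.ncard {y | γ y = g} := (Set.ncard_pos (Set.toFinite _)).2 ⟨a, hg⟩
      have h3 : 0 < Set.ncard {y | γ' y = g} :=
        (Set.ncard_pos (Set.toFinite _)).2 ⟨a', haa.trans hg⟩
      omega
    · simp only [hg, if_false]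
      omega

lemma ncard_split {A Γ : Type} [Finite A] (γ : A → Γ) (T : Set A) (g : Γ) :
    Set.ncard {x | (γ x, x ∈ T) = (g, True)} + Set.ncard {x | (γ x, x ∈ T) = (g, False)} =
      Set.ncard {x | γ x = g} := by
  rw [← Set.ncard_union_eq _ (Set.toFinite _) (Set.toFinite _)]
  · congr 1
    ext x
    by_cases hx : x ∈ T <;> simp [hx]
  · rw [Set.disjoint_left]
    intro x h1 h2
    have e1 := congrArg Prod.snd h1
    have e2 := congrArg Prod.snd h2
    have e3 : True = False := e1.symm.trans e2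
    exact e3 ▸ trivial

lemma CC.set {A A' Γ : Type} [Finite A] [Finite A'] {t : ℕ} {γ : A → Γ}
    {γ' : A' → Γ} (h : CC (2 * t) γ γ') (T : Set A) :
    ∃ T' : Set A', CC t (fun x => (γ x, x ∈ T)) (fun x => (γ' x, x ∈ T')) := by
  classical
  have key : ∀ g : Γ, ∃ s : Set A', s ⊆ {x | γ' x = g} ∧
      min (Set.ncard {x | (γ x, x ∈ T) = (g, True)}) t = min s.ncard t ∧
      min (Set.ncard {x | (γ x, x ∈ T) = (g, False)}) t =
        min (Set.ncard {x | γ' x = g} - s.ncard) t := by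
    intro g
    have h1 := h g
    rw [← ncard_split γ T g] at h1
    obtain ⟨m1', hm, e1, e2⟩ := split_num h1
    obtain ⟨s, hs, hsc⟩ := Set.exists_subset_card_eq hm
    exact ⟨s, hs, by rw [hsc]; exact e1, by rw [hsc]; exact e2⟩
  choose s hs e1 e2 using key
  refine ⟨{x | x ∈ s (γ' x)}, ?_⟩
  have hT : ∀ g, {x | (γ' x, x ∈ {x | x ∈ s (γ' x)}) = (g, True)} = s g := by
    intro g
    ext x
    simp only [Set.mem_ofPred_eq, Prod.mk.injEq, eq_iff_iff, iff_true]
    constructor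
    · rintro ⟨rfl, h⟩; exact h
    · intro hx
      have : γ' x = g := hs g hx
      exact ⟨this, by rw [this]; exact hx⟩
  rintro ⟨g, b⟩
  have h3 := ncard_split γ' {x | x ∈ s (γ' x)} g
  rw [hT g] at h3
  by_cases hb : b
  · have hbT : b = True := propext ⟨fun _ => trivial, fun _ => hb⟩
    subst hbT
    rw [hT g]
    exact e1 g
  · have hbF : b = False := propext ⟨fun h => hb h, fun h => h.elim⟩
    subst hbF
    have h4 : Set.ncard {x | (fun x => (γ' x, x ∈ {x | x ∈ s (γ' x)})) x = (g, False)} =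
        Set.ncard {x | γ' x = g} - (s g).ncard := by
      beta_reduce
      omega
    rw [h4]
    exact e2 g

/-- MSO formulas cannot distinguish relation-free structures with the same threshold counts. -/
theorem mso_sim {n k : ℕ} (φ : Fm U B n k) : ∀ (M M' : Str U B)
    (_ : ∀ r x y, ¬ M.bin r x y) (_ : ∀ r x y, ¬ M'.bin r x y)
    (v : Fin n → M.A) (S : Fin k → Set M.A) (v' : Fin n → M'.A) (S' : Fin k → Set M'.A)
    (Γ : Type) (γ : M.A → Γ) (γ' : M'.A → Γ)
    (_ : ∀ x x', γ x = γ' x' → (∀ p, x ∈ M.un p ↔ x' ∈ M'.un p) ∧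
      (∀ i, v i = x ↔ v' i = x') ∧ (∀ X, x ∈ S X ↔ x' ∈ S' X))
    (_ : CC (2 ^ φ.qr) γ γ'), φ.Sat M v S ↔ φ.Sat M' v' S' := by
  induction φ with
  | eq i j =>
    intro M M' _ _ v S v' S' Γ γ γ' hat hc
    have := M.fin; have := M'.fin
    obtain ⟨x', hx'⟩ := hc.exists (by positivity) (v i)
    have h1 := (hat (v i) x' hx'.symm).2.1
    have h2 : v' i = x' := (h1 i).1 rfl
    have h3 := h1 j
    simp only [Fm.Sat]
    rw [h2, eq_comm (a := x'), ← h3, eq_comm]
  | un p i =>
    intro M M' _ _ v S v' S' Γ γ γ' hat hc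
    have := M.fin; have := M'.fin
    obtain ⟨x', hx'⟩ := hc.exists (by positivity) (v i)
    have h1 := hat (v i) x' hx'.symm
    have h2 : v' i = x' := (h1.2.1 i).1 rfl
    simp only [Fm.Sat]
    rw [h2]; exact h1.1 p
  | bin r i j =>
    intro M M' hM hM' v S v' S' Γ γ γ' hat hc
    simp only [Fm.Sat]
    exact ⟨fun h => absurd h (hM _ _ _), fun h => absurd h (hM' _ _ _)⟩
  | mem i X =>
    intro M M' _ _ v S v' S' Γ γ γ' hat hc
    have := M.fin; have := M'.fin
    obtain ⟨x', hx'⟩ := hc.exists (by positivity) (v i)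
    have h1 := hat (v i) x' hx'.symm
    have h2 : v' i = x' := (h1.2.1 i).1 rfl
    simp only [Fm.Sat]
    rw [h2]; exact h1.2.2 X
  | neg φ ih =>
    intro M M' hM hM' v S v' S' Γ γ γ' hat hc
    simp only [Fm.Sat]
    exact not_congr (ih M M' hM hM' v S v' S' Γ γ γ' hat hc)
  | and φ ψ ih1 ih2 =>
    intro M M' hM hM' v S v' S' Γ γ γ' hat hc
    simp only [Fm.Sat]
    have p1 : 2 ^ φ.qr ≤ 2 ^ (Fm.and φ ψ).qr := Nat.pow_le_pow_right (by norm_num) (le_max_left _ _)
    have p2 : 2 ^ ψ.qr ≤ 2 ^ (Fm.and φ ψ).qr :=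
      Nat.pow_le_pow_right (by norm_num) (le_max_right _ _)
    exact and_congr (ih1 M M' hM hM' v S v' S' Γ γ γ' hat (hc.mono p1))
      (ih2 M M' hM hM' v S v' S' Γ γ γ' hat (hc.mono p2))
  | @exElt n k φ ih =>
    have dir : ∀ (M M' : Str U B)
        (_ : ∀ r x y, ¬ M.bin r x y) (_ : ∀ r x y, ¬ M'.bin r x y)
        (v : Fin n → M.A) (S : Fin k → Set M.A) (v' : Fin n → M'.A) (S' : Fin k → Set M'.A)
        (Γ : Type) (γ : M.A → Γ) (γ' : M'.A → Γ)
        (_ : ∀ x x', γ x = γ' x' → (∀ p, x ∈ M.un p ↔ x' ∈ M'.un p) ∧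
          (∀ i, v i = x ↔ v' i = x') ∧ (∀ X, x ∈ S X ↔ x' ∈ S' X))
        (_ : CC (2 ^ (φ.qr + 1)) γ γ'), (∃ a, φ.Sat M (Fin.snoc v a) S) →
          ∃ a, φ.Sat M' (Fin.snoc v' a) S' := by
      intro M M' hM hM' v S v' S' Γ γ γ' hat hc
      have := M.fin; have := M'.fin
      rintro ⟨a, ha⟩
      obtain ⟨a', ha'⟩ := hc.exists (by positivity) a
      refine ⟨a', (ih M M' hM hM' _ _ _ _ (Γ × Prop) (fun x => (γ x, x = a))
        (fun x => (γ' x, x = a')) ?_ ?_).1 ha⟩
      · intro x x' hxx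
        have e1 : γ x = γ' x' := congrArg Prod.fst hxx
        have e2 : (x = a) = (x' = a') := congrArg Prod.snd hxx
        have h1 := hat x x' e1
        refine ⟨h1.1, fun i => ?_, h1.2.2⟩
        refine Fin.lastCases ?_ (fun i => ?_) i
        · simp only [Fin.snoc_last]
          rw [eq_comm, e2, eq_comm]
        · simp only [Fin.snoc_castSucc]
          exact h1.2.1 i
      · refine CC.elt (by positivity) ?_ ha'
        have : 2 * 2 ^ φ.qr = 2 ^ (φ.qr + 1) := by ring
        rw [this]; exact hc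
    intro M M' hM hM' v S v' S' Γ γ γ' hat hc
    simp only [Fm.Sat]
    refine ⟨dir M M' hM hM' v S v' S' Γ γ γ' hat hc,
      dir M' M hM' hM v' S' v S Γ γ' γ ?_ hc.symm⟩
    intro x' x hxx
    have h1 := hat x x' hxx.symm
    exact ⟨fun p => (h1.1 p).symm, fun i => (h1.2.1 i).symm, fun X => (h1.2.2 X).symm⟩
  | @exSet n k φ ih =>
    have dir : ∀ (M M' : Str U B)
        (_ : ∀ r x y, ¬ M.bin r x y) (_ : ∀ r x y, ¬ M'.bin r x y)
        (v : Fin n → M.A) (S : Fin k → Set M.A) (v' : Fin n → M'.A) (S' : Fin k → Set M'.A)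
        (Γ : Type) (γ : M.A → Γ) (γ' : M'.A → Γ)
        (_ : ∀ x x', γ x = γ' x' → (∀ p, x ∈ M.un p ↔ x' ∈ M'.un p) ∧
          (∀ i, v i = x ↔ v' i = x') ∧ (∀ X, x ∈ S X ↔ x' ∈ S' X))
        (_ : CC (2 ^ (φ.qr + 1)) γ γ'), (∃ T, φ.Sat M v (Fin.snoc S T)) →
          ∃ T, φ.Sat M' v' (Fin.snoc S' T) := by
      intro M M' hM hM' v S v' S' Γ γ γ' hat hc
      have := M.fin; have := M'.fin
      rintro ⟨T, hT⟩
      have h2 : 2 * 2 ^ φ.qr = 2 ^ (φ.qr + 1) := by ring
      rw [← h2] at hc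
      obtain ⟨T', hT'⟩ := hc.set T
      refine ⟨T', (ih M M' hM hM' _ _ _ _ (Γ × Prop) (fun x => (γ x, x ∈ T))
        (fun x => (γ' x, x ∈ T')) ?_ hT').1 hT⟩
      intro x x' hxx
      have e1 : γ x = γ' x' := congrArg Prod.fst hxx
      have e2 : (x ∈ T) = (x' ∈ T') := congrArg Prod.snd hxx
      have h1 := hat x x' e1
      refine ⟨h1.1, h1.2.1, fun X => ?_⟩
      refine Fin.lastCases ?_ (fun X => ?_) X
      · simp only [Fin.snoc_last]
        exact iff_of_eq e2
      · simp only [Fin.snoc_castSucc]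
        exact h1.2.2 X
    intro M M' hM hM' v S v' S' Γ γ γ' hat hc
    simp only [Fm.Sat]
    refine ⟨dir M M' hM hM' v S v' S' Γ γ γ' hat hc,
      dir M' M hM' hM v' S' v S Γ γ' γ ?_ hc.symm⟩
    intro x' x hxx
    have h1 := hat x x' hxx.symm
    exact ⟨fun p => (h1.1 p).symm, fun i => (h1.2.1 i).symm, fun X => (h1.2.2 X).symm⟩

end Pool.Agent.Lib_helper60.MonPP
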