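import Pool.Agent.Lib_helper60.MonPP.Majority

/-!
# Inclusions between the monadic classes, and the majority property
-/

namespace Pool.Agent.Lib_helper60.MonPP

variable {U B : Type}

/-- renaming set variables -/
def Fm.ren : {n k : ℕ} → Fm U B n k → {k' : ℕ} → (Fin k → Fin k') → Fm U B n k'
  | _, _, .eq i j, _, _ => .eq i j
  | _, _, .un p i, _, _ => .un p i
  | _, _, .bin r i j, _, _ => .bin r i j
  | _, _, .mem i X, _, f => .mem i (f X)
  | _, _, .neg φ, _, f => .neg (φ.ren f)
  | _, _, .and φ ψ, _, f => .and (φ.ren f) (ψ.ren f)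
  | _, _, .exElt φ, _, f => .exElt (φ.ren f)
  | _, _, .exSet φ, _, f => .exSet (φ.ren (Fin.snoc (fun i => (f i).castSucc) (Fin.last _)))

lemma Fm.ren_isFO {n k : ℕ} (φ : Fm U B n k) (hφ : φ.IsFO) {k' : ℕ} (f : Fin k → Fin k') :
    (φ.ren f).IsFO := by
  induction φ with
  | eq i j => trivial
  | un p i => trivial
  | bin r i j => trivial
  | mem i X => trivial
  | neg φ ih => exact ih hφ f
  | and φ ψ ih1 ih2 => exact ⟨ih1 hφ.1 f, ih2 hφ.2 f⟩
  | exElt φ ih => exact ih hφ f
  | exSet φ ih => exact absurd hφ (by simp [Fm.IsFO])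

lemma Fm.ren_sat (M : Str U B) {n k : ℕ} (φ : Fm U B n k) : ∀ {k' : ℕ} (f : Fin k → Fin k')
    (v : Fin n → M.A) (S : Fin k' → Set M.A), (φ.ren f).Sat M v S ↔ φ.Sat M v (S ∘ f) := by
  induction φ with
  | eq i j => intro k' f v S; rfl
  | un p i => intro k' f v S; rfl
  | bin r i j => intro k' f v S; rfl
  | mem i X => intro k' f v S; rfl
  | neg φ ih => intro k' f v S; exact not_congr (ih f v S)
  | and φ ψ ih1 ih2 => intro k' f v S; exact and_congr (ih1 f v S) (ih2 f v S)
  | exElt φ ih =>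
    intro k' f v S
    exact exists_congr fun a => ih f _ S
  | exSet φ ih =>
    intro k' f v S
    simp only [Fm.ren, Fm.Sat]
    refine exists_congr fun T => ?_
    rw [ih]
    have : (Fin.snoc S T : Fin (k' + 1) → Set M.A) ∘
        (Fin.snoc (fun i => (f i).castSucc) (Fin.last k') : Fin (_ + 1) → Fin (k' + 1)) =
        Fin.snoc (S ∘ f) T := by
      funext i
      refine Fin.lastCases ?_ (fun i => ?_) i
      · simp
      · simp
    rw [this]

/-- quantify the last `l` set variables existentially -/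
def exSets {k : ℕ} : (l : ℕ) → Fm U B 0 (k + l) → Fm U B 0 k
  | 0, φ => φ
  | l + 1, φ => exSets l (.exSet (k := k + l) φ)

lemma append_snoc' {α : Type} {k l : ℕ} (S : Fin k → α) (T : Fin l → α) (a : α) :
    (Fin.snoc (Fin.append S T) a : Fin (k + l + 1) → α) =
      (Fin.append S (Fin.snoc T a : Fin (l + 1) → α) : Fin (k + (l + 1)) → α) := by
  funext i
  refine Fin.lastCases ?_ (fun i => ?_) i
  · rw [Fin.snoc_last]
    have : (Fin.last (k + l) : Fin (k + l + 1)) = (Fin.natAdd k (Fin.last l) : Fin (k + (l + 1))) :=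
      by ext; simp
    rw [this, Fin.append_right, Fin.snoc_last]
  · rw [Fin.snoc_castSucc]
    refine Fin.addCases (fun i => ?_) (fun i => ?_) i
    · rw [Fin.append_left]
      have : (Fin.castAdd l i).castSucc = (Fin.castAdd (l + 1) i : Fin (k + (l + 1))) := by
        ext; simp
      rw [this, Fin.append_left]
    · rw [Fin.append_right]
      have : (Fin.natAdd k i).castSucc = (Fin.natAdd k i.castSucc : Fin (k + (l + 1))) := by
        ext; simp
      rw [this, Fin.append_right, Fin.snoc_castSucc]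

lemma holds_exSets (M : Str U B) {k : ℕ} : ∀ (l : ℕ) (φ : Fm U B 0 (k + l))
    (S : Fin k → Set M.A), (exSets l φ).Holds M S ↔
      ∃ T : Fin l → Set M.A, φ.Holds M (Fin.append S T) := by
  intro l
  induction l with
  | zero =>
    intro φ S
    constructor
    · intro h
      refine ⟨Fin.elim0, ?_⟩
      have : Fin.append S (Fin.elim0 : Fin 0 → Set M.A) = S := by
        funext i
        have := Fin.append_left S (Fin.elim0 : Fin 0 → Set M.A) i
        exact this
      rw [this]; exact h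
    · rintro ⟨T, hT⟩
      have : Fin.append S T = S := by
        funext i
        exact Fin.append_left S T i
      rw [this] at hT; exact hT
  | succ l ih =>
    intro φ S
    show (exSets l (.exSet (k := k + l) φ)).Holds M S ↔ _
    rw [ih]
    constructor
    · rintro ⟨T, a, h⟩
      refine ⟨Fin.snoc T a, ?_⟩
      rw [append_snoc'] at h
      exact h
    · rintro ⟨T, h⟩
      refine ⟨fun i => T i.castSucc, T (Fin.last l), ?_⟩
      rw [append_snoc']
      have : (Fin.snoc (fun i => T i.castSucc) (T (Fin.last l)) : Fin (l + 1) → Set M.A) = T := by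
        funext i
        refine Fin.lastCases ?_ (fun i => ?_) i
        · simp
        · simp
      rw [this]
      exact h

lemma append_elim0_left {α : Type} {k : ℕ} (S0 : Fin 0 → α) (T : Fin k → α) (i : Fin k) :
    Fin.append S0 T (Fin.cast (Nat.zero_add k).symm i) = T i := by
  have h : Fin.cast (Nat.zero_add k).symm i = Fin.natAdd 0 i := by
    ext; simp
  rw [h, Fin.append_right]

/-- existential closure -/
def exClose {k : ℕ} (φ : Fm U B 0 k) : Fm U B 0 0 :=
  exSets k (φ.ren (Fin.cast (Nat.zero_add k).symm))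

lemma holds_exClose (M : Str U B) {k : ℕ} (φ : Fm U B 0 k) (S0 : Fin 0 → Set M.A) :
    (exClose φ).Holds M S0 ↔ ∃ S : Fin k → Set M.A, φ.Holds M S := by
  unfold exClose
  rw [holds_exSets]
  refine exists_congr fun T => ?_
  unfold Fm.Holds
  rw [Fm.ren_sat]
  have : Fin.append S0 T ∘ Fin.cast (Nat.zero_add k).symm = T := by
    funext i
    exact append_elim0_left S0 T i
  rw [this]

theorem monNP_MSO {K : Prty U B} (hK : MonNP K) : MSO K := by
  obtain ⟨k, φ, _, h⟩ := hK
  exact ⟨exClose φ, fun M => by rw [h M, holds_exClose]⟩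

theorem monCoNP_MSO {K : Prty U B} (hK : MonCoNP K) : MSO K := by
  obtain ⟨k, φ, _, h⟩ := hK
  refine ⟨.neg (exClose (.neg φ)), fun M => ?_⟩
  have h1 := holds_exClose M (.neg φ) Fin.elim0
  rw [h M]
  show _ ↔ ¬ (exClose (.neg φ)).Holds M Fin.elim0
  rw [h1]
  constructor
  · rintro h2 ⟨S, hS⟩
    exact hS (h2 S)
  · intro h2 S
    by_contra h3
    exact h2 ⟨S, h3⟩

theorem monSigma2_MSO {K : Prty U B} (hK : MonSigma2 K) : MSO K := by
  obtain ⟨k, l, φ, _, h⟩ := hK
  refine ⟨exClose (.neg (exSets l (.neg φ))), fun M => ?_⟩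
  rw [h M, holds_exClose]
  refine exists_congr fun S => ?_
  have h1 := holds_exSets M l (.neg φ) S
  show _ ↔ ¬ (exSets l (.neg φ)).Holds M S
  rw [h1]
  constructor
  · rintro h2 ⟨T, hT⟩
    exact hT (h2 T)
  · intro h2 T
    by_contra h3
    exact h2 ⟨T, h3⟩

/-- a true sentence -/
def fTrue {k : ℕ} : Fm U B 0 k := fAll (.eq 0 0)

lemma sat_fTrue (M : Str U B) {k : ℕ} (S : Fin k → Set M.A) :
    (fTrue : Fm U B 0 k).Holds M S := by
  unfold Fm.Holds fTrue
  rw [sat_fAll]
  intro a; rfl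

/-- all listed sets are empty -/
def fEmpty {k : ℕ} : List (Fin k) → Fm U B 0 k
  | [] => fTrue
  | X :: l => .and (fAll (.neg (.mem 0 X))) (fEmpty l)

lemma fEmpty_isFO {k : ℕ} (l : List (Fin k)) : (fEmpty l : Fm U B 0 k).IsFO := by
  induction l with
  | nil => simp [fEmpty, fTrue, fAll, Fm.IsFO]
  | cons X l ih => exact ⟨by simp [fAll, Fm.IsFO], ih⟩

lemma holds_fEmpty (M : Str U B) {k : ℕ} (l : List (Fin k)) (S : Fin k → Set M.A) :
    (fEmpty l : Fm U B 0 k).Holds M S ↔ ∀ X ∈ l, S X = ∅ := by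
  induction l with
  | nil => simp [fEmpty, sat_fTrue]
  | cons X l ih =>
    have h1 : (fEmpty (X :: l) : Fm U B 0 k).Holds M S ↔
        ((fAll (.neg (.mem 0 X)) : Fm U B 0 k).Sat M Fin.elim0 S ∧ (fEmpty l).Holds M S) :=
      Iff.rfl
    rw [h1, ih, sat_fAll, List.forall_mem_cons]
    refine and_congr ?_ Iff.rfl
    rw [Set.eq_empty_iff_forall_notMem]
    exact Iff.rfl

theorem monNP_monPP {K : Prty U B} (hK : MonNP K) : MonPP K := by
  obtain ⟨k, φ, hφ, h⟩ := hK
  refine ⟨k, φ, .and φ (.neg φ), hφ, ⟨hφ, hφ⟩, fun M => ?_⟩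
  have := M.fin
  have h0 : Nat.card {S : Fin k → Set M.A // (Fm.and φ (.neg φ)).Holds M S} = 0 := by
    rw [Nat.card_eq_zero]
    left
    exact ⟨fun S => S.2.2 S.2.1⟩
  rw [h0, h M, Nat.card_pos_iff]
  constructor
  · rintro ⟨S, hS⟩
    exact ⟨⟨⟨S, hS⟩⟩, inferInstance⟩
  · rintro ⟨⟨S⟩, _⟩
    exact ⟨S.1, S.2⟩

lemma card_fEmpty (M : Str U B) (k : ℕ) :
    Nat.card {S : Fin k → Set M.A // (fEmpty (List.finRange k) : Fm U B 0 k).Holds M S} = 1 := by
  rw [Nat.card_eq_one_iff_unique]
  constructor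
  · constructor
    rintro ⟨S, hS⟩ ⟨S', hS'⟩
    rw [holds_fEmpty] at hS hS'
    refine Subtype.ext (funext fun X => ?_)
    exact (hS X (List.mem_finRange X)).trans (hS' X (List.mem_finRange X)).symm
  · exact ⟨⟨fun _ => ∅, (holds_fEmpty M _ _).2 fun _ _ => rfl⟩⟩

theorem monCoNP_monPP {K : Prty U B} (hK : MonCoNP K) : MonPP K := by
  obtain ⟨k, φ, hφ, h⟩ := hK
  refine ⟨k, fEmpty (List.finRange k), .neg φ, fEmpty_isFO _, hφ, fun M => ?_⟩
  have := M.fin
  rw [card_fEmpty, Nat.lt_one_iff, Nat.card_eq_zero, h M]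
  constructor
  · intro h1
    left
    exact ⟨fun S => S.2 (h1 S.1)⟩
  · rintro (h1 | h1) S
    · by_contra h2
      exact h1.false ⟨S, h2⟩
    · exact absurd (inferInstance : Finite {S : Fin k → Set M.A // (Fm.neg φ).Holds M S})
        (not_finite_iff_infinite.2 h1)

/-- monadic PP is closed under complement -/
theorem monPP_compl {K : Prty U B} (hK : MonPP K) : MonPP (fun M => ¬ K M) := by
  obtain ⟨k, φ, ψ, hφ, hψ, h⟩ := hK
  -- the last set is empty
  let e1 : Fm U B 0 (k + 1) := fAll (.neg (.mem 0 (Fin.last k)))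
  -- the last set is everything
  let e2 : Fm U B 0 (k + 1) := fAll (.mem 0 (Fin.last k))
  let z : Fm U B 0 (k + 1) := (fEmpty (List.finRange k)).ren Fin.castSucc
  let ψ' : Fm U B 0 (k + 1) :=
    .neg (.and (.neg (.and (ψ.ren Fin.castSucc) e1)) (.neg (.and z e2)))
  refine ⟨k + 1, ψ', .and (φ.ren Fin.castSucc) e1, ?_, ?_, fun M => ?_⟩
  · exact ⟨⟨Fm.ren_isFO _ hψ _, by simp [e1, fAll, Fm.IsFO]⟩,
      ⟨Fm.ren_isFO _ (fEmpty_isFO _) _, by simp [e2, fAll, Fm.IsFO]⟩⟩
  · exact ⟨Fm.ren_isFO _ hφ _, by simp [e1, fAll, Fm.IsFO]⟩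
  · have := M.fin
    have := M.ne
    have he1 : ∀ S : Fin (k + 1) → Set M.A, e1.Holds M S ↔ S (Fin.last k) = ∅ := by
      intro S
      show (fAll (.neg (.mem 0 (Fin.last k))) : Fm U B 0 (k + 1)).Sat M Fin.elim0 S ↔ _
      rw [sat_fAll, Set.eq_empty_iff_forall_notMem]
      exact Iff.rfl
    have he2 : ∀ S : Fin (k + 1) → Set M.A, e2.Holds M S ↔ S (Fin.last k) = Set.univ := by
      intro S
      show (fAll (.mem 0 (Fin.last k)) : Fm U B 0 (k + 1)).Sat M Fin.elim0 S ↔ _
      rw [sat_fAll, Set.eq_univ_iff_forall]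
      exact Iff.rfl
    have hren : ∀ (χ : Fm U B 0 k) (S : Fin (k + 1) → Set M.A),
        (χ.ren Fin.castSucc).Holds M S ↔ χ.Holds M (fun i => S i.castSucc) := by
      intro χ S
      unfold Fm.Holds
      rw [Fm.ren_sat]
      rfl
    have hcard : ∀ χ : Fm U B 0 k,
        Nat.card {S : Fin (k + 1) → Set M.A // (Fm.and (χ.ren Fin.castSucc) e1).Holds M S} =
        Nat.card {S : Fin k → Set M.A // χ.Holds M S} := by
      intro χ
      refine Nat.card_congr ⟨fun S => ⟨fun i => S.1 i.castSucc, (hren χ S.1).1 S.2.1⟩,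
        fun S => ⟨Fin.snoc S.1 ∅, (hren χ _).2 (by simpa using S.2), (he1 _).2 (by simp)⟩,
        ?_, ?_⟩
      · rintro ⟨S, hS1, hS2⟩
        refine Subtype.ext (funext fun i => ?_)
        refine Fin.lastCases ?_ (fun i => ?_) i
        · simp only [Fin.snoc_last]
          exact ((he1 S).1 hS2).symm
        · simp
      · rintro ⟨S, hS⟩
        refine Subtype.ext (funext fun i => ?_)
        simp
    have hψ' : Nat.card {S : Fin (k + 1) → Set M.A // ψ'.Holds M S} =
        Nat.card {S : Fin k → Set M.A // ψ.Holds M S} + 1 := by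
      rw [← hcard ψ]
      have hu : {S : Fin (k + 1) → Set M.A | ψ'.Holds M S} =
          {S | (Fm.and (ψ.ren Fin.castSucc) e1).Holds M S} ∪ {Fin.snoc (fun _ => ∅) Set.univ} := by
        ext S
        have h1 : ψ'.Holds M S ↔ ((Fm.and (ψ.ren Fin.castSucc) e1).Holds M S ∨
            (z.Holds M S ∧ e2.Holds M S)) := by
          show ¬ (¬ _ ∧ ¬ _) ↔ _
          rw [← or_iff_not_and_not]
          exact Iff.rfl
        have h2 : (z.Holds M S ∧ e2.Holds M S) ↔ S = Fin.snoc (fun _ => ∅) Set.univ := by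
          rw [he2, hren, holds_fEmpty]
          constructor
          · rintro ⟨h3, h4⟩
            funext i
            refine Fin.lastCases ?_ (fun i => ?_) i
            · simpa using h4
            · simpa using h3 i (List.mem_finRange i)
          · rintro rfl
            simp
        show ψ'.Holds M S ↔ _
        rw [h1, h2]
        exact Iff.rfl
      have hd : Disjoint {S : Fin (k + 1) → Set M.A | (Fm.and (ψ.ren Fin.castSucc) e1).Holds M S}
          {Fin.snoc (fun _ => ∅) Set.univ} := by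
        rw [Set.disjoint_singleton_right]
        intro h1
        have h2 := (he1 _).1 h1.2
        simp only [Fin.snoc_last] at h2
        exact Set.empty_ne_univ h2.symm
      have := Set.ncard_union_eq hd (Set.toFinite _) (Set.toFinite _)
      rw [← hu, Set.ncard_singleton] at this
      exact this
    show ¬ K M ↔ _
    rw [hcard, hψ', h M]
    omega

/-- more elements with the predicate `p` than without -/
def KMaj (p : U) (M : Str U B) : Prop :=
  Nat.card {x : M.A // x ∉ M.un p} < Nat.card {x : M.A // x ∈ M.un p}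

theorem kMaj_monPP (p : U) : MonPP (KMaj p : Prty U B) := by
  refine ⟨1, .exElt (.and (fAll (fIff (.mem 1 0) (.eq 1 0))) (.un p 0)),
    .exElt (.and (fAll (fIff (.mem 1 0) (.eq 1 0))) (.neg (.un p 0))),
    by simp [fAll, fIff, fImp, Fm.IsFO], by simp [fAll, fIff, fImp, Fm.IsFO], fun M => ?_⟩
  have := M.fin
  have key : ∀ (χ : Fm U B 1 1) (P : M.A → Prop)
      (_ : ∀ (x : M.A) (S : Fin 1 → Set M.A), χ.Sat M (Fin.snoc Fin.elim0 x) S ↔ P x),
      Nat.card {S : Fin 1 → Set M.A //
        (Fm.exElt (.and (fAll (fIff (.mem 1 0) (.eq 1 0))) χ)).Holds M S} =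
      Nat.card {x : M.A // P x} := by
    intro χ P hχ
    have hh : ∀ S : Fin 1 → Set M.A,
        (Fm.exElt (.and (fAll (fIff (.mem 1 0) (.eq 1 0))) χ)).Holds M S ↔
        ∃ x, S 0 = {x} ∧ P x := by
      intro S
      show (∃ x, (fAll (fIff (.mem 1 0) (.eq 1 0))).Sat M _ S ∧ χ.Sat M _ S) ↔ _
      refine exists_congr fun x => ?_
      refine and_congr ?_ (hχ x S)
      rw [sat_fAll]
      have : ∀ a, (fIff (.mem 1 0) (.eq 1 0) : Fm U B 2 1).Sat M
          (Fin.snoc (Fin.snoc Fin.elim0 x : Fin 1 → M.A) a) S ↔ (a ∈ S 0 ↔ a = x) := by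
        intro a
        rw [sat_fIff]
        exact Iff.rfl
      simp only [this]
      constructor
      · intro h; ext a; rw [h a]; rfl
      · intro h a; rw [h]; rfl
    refine (Nat.card_congr (Equiv.ofBijective
      (fun x : {x : M.A // P x} => (⟨fun _ => {x.1}, (hh _).2 ⟨x.1, rfl, x.2⟩⟩ :
        {S : Fin 1 → Set M.A //
          (Fm.exElt (.and (fAll (fIff (.mem 1 0) (.eq 1 0))) χ)).Holds M S})) ⟨?_, ?_⟩)).symm
    · intro x y hxy
      have h1 := congrFun (congrArg Subtype.val hxy) 0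
      exact Subtype.ext (Set.singleton_injective h1)
    · rintro ⟨S, hS⟩
      obtain ⟨x, hx, hp⟩ := (hh S).1 hS
      refine ⟨⟨x, hp⟩, Subtype.ext (funext fun i => ?_)⟩
      rw [Subsingleton.elim i 0]
      exact hx.symm
  rw [key (.un p 0) (fun x => x ∈ M.un p) (fun x S => Iff.rfl),
    key (.neg (.un p 0)) (fun x => x ∉ M.un p) (fun x S => Iff.rfl)]
  exact Iff.rfl

/-- the coloured set with `a` elements satisfying `p` and `b` others -/
def colouredSet (p : U) (a b : ℕ) (h : 0 < a + b) : Str U B where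
  A := Fin (a + b)
  fin := inferInstance
  ne := ⟨⟨0, h⟩⟩
  un := fun q => {x | q = p ∧ x.1 < a}
  bin := fun _ _ _ => False

lemma ncard_lt (a b : ℕ) : Set.ncard {x : Fin (a + b) | x.1 < a} = a := by
  have h1 : {x : Fin (a + b) | x.1 < a} = Set.range (Fin.castAdd b : Fin a → Fin (a + b)) := by
    ext x
    constructor
    · intro hx
      exact ⟨⟨x.1, hx⟩, by ext; rfl⟩
    · rintro ⟨y, rfl⟩
      exact y.2
  rw [h1, ← Set.image_univ, Set.ncard_image_of_injective _ (Fin.castAdd_injective a b),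
    Set.ncard_univ, Nat.card_fin]

lemma ncard_not_lt (a b : ℕ) : Set.ncard {x : Fin (a + b) | ¬ x.1 < a} = b := by
  have h1 : {x : Fin (a + b) | ¬ x.1 < a} = Set.range (Fin.natAdd a : Fin b → Fin (a + b)) := by
    ext x
    constructor
    · intro hx
      have h2 : ¬ x.1 < a := hx
      have h3 := x.2
      exact ⟨⟨x.1 - a, by omega⟩, by ext; simp; omega⟩
    · rintro ⟨y, rfl⟩
      show ¬ (Fin.natAdd a y).1 < a
      simp
  rw [h1, ← Set.image_univ, Set.ncard_image_of_injective _ (Fin.natAdd_injective b a),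
    Set.ncard_univ, Nat.card_fin]

lemma kMaj_coloured (p : U) (a b : ℕ) (h : 0 < a + b) :
    KMaj p (colouredSet p a b h : Str U B) ↔ b < a := by
  have h1 : Nat.card {x : (colouredSet p a b h : Str U B).A //
      x ∈ (colouredSet p a b h : Str U B).un p} = a := by
    have : {x : Fin (a + b) | x.1 < a} =
        {x : Fin (a + b) | x ∈ (colouredSet p a b h : Str U B).un p} := by
      ext x
      show x.1 < a ↔ (p = p ∧ x.1 < a)
      simp
    conv_rhs => rw [← ncard_lt a b, this]
    rfl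
  have h2 : Nat.card {x : (colouredSet p a b h : Str U B).A //
      x ∉ (colouredSet p a b h : Str U B).un p} = b := by
    have : {x : Fin (a + b) | ¬ x.1 < a} =
        {x : Fin (a + b) | x ∉ (colouredSet p a b h : Str U B).un p} := by
      ext x
      show ¬ x.1 < a ↔ ¬ (p = p ∧ x.1 < a)
      simp
    conv_rhs => rw [← ncard_not_lt a b, this]
    rfl
  unfold KMaj
  rw [h1, h2]

theorem kMaj_not_MSO (p : U) : ¬ MSO (KMaj p : Prty U B) := by
  rintro ⟨φ, hφ⟩
  set N := 2 ^ φ.qr with hN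
  have hNpos : 0 < N := by positivity
  let M : Str U B := colouredSet p (N + 1) N (by omega)
  let M' : Str U B := colouredSet p N (N + 1) (by omega)
  have h1 := mso_sim φ M M' (fun _ _ _ h => h) (fun _ _ _ h => h) Fin.elim0 Fin.elim0 Fin.elim0
    Fin.elim0 Prop (fun x => x.1 < N + 1) (fun x => x.1 < N) ?_ ?_
  · have h2 := (hφ M).1 ((kMaj_coloured p _ _ _).2 (by omega))
    have h3 := (hφ M').2 (h1.1 h2)
    have h4 := (kMaj_coloured p _ _ _).1 h3
    omega
  · intro x x' hxx
    refine ⟨fun q => ?_, fun i => i.elim0, fun X => X.elim0⟩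
    show (q = p ∧ x.1 < N + 1) ↔ (q = p ∧ x'.1 < N)
    rw [show (x.1 < N + 1) = (x'.1 < N) from hxx]
  · intro g
    by_cases hg : g
    · have hgT : g = True := propext ⟨fun _ => trivial, fun _ => hg⟩
      subst hgT
      have e1 : {x : Fin (N + 1 + N) | (x.1 < N + 1) = True} = {x | x.1 < N + 1} := by
        ext x; simp
      have e2 : {x : Fin (N + (N + 1)) | (x.1 < N) = True} = {x | x.1 < N} := by
        ext x; simp
      show min (Set.ncard {x : Fin (N + 1 + N) | (x.1 < N + 1) = True}) _ =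
        min (Set.ncard {x : Fin (N + (N + 1)) | (x.1 < N) = True}) _
      rw [e1, e2, ncard_lt, ncard_lt]
      omega
    · have hgF : g = False := propext ⟨fun h => hg h, fun h => h.elim⟩
      subst hgF
      have e1 : {x : Fin (N + 1 + N) | (x.1 < N + 1) = False} = {x | ¬ x.1 < N + 1} := by
        ext x
        show ((x.1 < N + 1) = False) ↔ ¬ x.1 < N + 1
        rw [eq_iff_iff, iff_false]
      have e2 : {x : Fin (N + (N + 1)) | (x.1 < N) = False} = {x | ¬ x.1 < N} := by
        ext x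
        show ((x.1 < N) = False) ↔ ¬ x.1 < N
        rw [eq_iff_iff, iff_false]
      show min (Set.ncard {x : Fin (N + 1 + N) | (x.1 < N + 1) = False}) _ =
        min (Set.ncard {x : Fin (N + (N + 1)) | (x.1 < N) = False}) _
      rw [e1, e2, ncard_not_lt, ncard_not_lt]
      omega

end Pool.Agent.Lib_helper60.MonPP
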