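import Mathlib

/-!
# The number of dichotomies cut out by half-spaces (Sauer-Shelah)
-/

namespace Pool.Agent.Lib_helper60.MonPP

open Finset

lemma sum_choose_le (N D : ℕ) : ∑ k ∈ Finset.Iic D, N.choose k ≤ (N + 1) ^ D := by
  have h1 : (Finset.Iic D) = Finset.range (D + 1) := by
    ext x; simp
  rw [h1, add_pow]
  refine Finset.sum_le_sum fun k hk => ?_
  have hk' : k ≤ D := by simpa [Nat.lt_succ_iff] using hk
  have h2 : N.choose k ≤ N ^ k := Nat.choose_le_pow N k
  have h3 : 0 < D.choose k := Nat.choose_pos hk'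
  calc N.choose k ≤ N ^ k := h2
    _ ≤ N ^ k * 1 ^ (D - k) * D.choose k := by
      rw [one_pow, mul_one]; exact Nat.le_mul_of_pos_right _ h3

/-- a family of half-space dichotomies in dimension `D` has VC dimension at most `D` -/
lemma shatters_card_le {V ι : Type} [DecidableEq V] [Fintype ι] (m : V → ι → ℝ)
    (𝒜 : Finset (Finset V))
    (hA : ∀ s ∈ 𝒜, ∃ g : ι → ℝ, ∀ v, v ∈ s ↔ 0 < ∑ i, g i * m v i) {s : Finset V}
    (hs : 𝒜.Shatters s) : s.card ≤ Fintype.card ι := by
  by_contra hcon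
  push Not at hcon
  have hnl : ¬ LinearIndependent ℝ (fun v : {v // v ∈ s} => m v.1) := by
    intro hli
    have h1 := hli.fintype_card_le_finrank
    rw [Module.finrank_fintype_fun_eq_card, Fintype.card_coe] at h1
    omega
  rw [Fintype.not_linearIndependent_iff] at hnl
  obtain ⟨c, hc, i0, hi0⟩ := hnl
  -- choose the sign so that some coefficient is positive
  obtain ⟨c, hc, i0, hi0⟩ : ∃ c : {v // v ∈ s} → ℝ, (∑ i, c i • m i.1 = 0) ∧ ∃ i, 0 < c i := by
    rcases lt_or_gt_of_ne hi0 with h | h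
    · refine ⟨fun i => - c i, ?_, i0, by simpa using h⟩
      simp only [neg_smul, Finset.sum_neg_distrib, hc, neg_zero]
    · exact ⟨c, hc, i0, h⟩
  obtain ⟨u, hu, hsu⟩ := hs (t := (Finset.univ.filter fun i : {v // v ∈ s} => 0 < c i).image
    Subtype.val) (by
      intro x hx
      simp only [Finset.mem_image, Finset.mem_filter, Finset.mem_univ, true_and] at hx
      obtain ⟨y, _, rfl⟩ := hx
      exact y.2)
  obtain ⟨g, hg⟩ := hA u hu
  have hmem : ∀ i : {v // v ∈ s}, (0 < ∑ j, g j * m i.1 j) ↔ 0 < c i := by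
    intro i
    rw [← hg]
    have h1 : i.1 ∈ u ↔ i.1 ∈ s ∩ u := by simp [i.2]
    rw [h1, hsu]
    simp
  have hsum : ∑ i : {v // v ∈ s}, c i * ∑ j, g j * m i.1 j = 0 := by
    have h1 : ∀ j, ∑ i : {v // v ∈ s}, c i * m i.1 j = 0 := by
      intro j
      have := congrFun hc j
      simpa [Finset.sum_apply] using this
    calc ∑ i : {v // v ∈ s}, c i * ∑ j, g j * m i.1 j
        = ∑ j, g j * ∑ i : {v // v ∈ s}, c i * m i.1 j := by
          simp_rw [Finset.mul_sum]
          rw [Finset.sum_comm]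
          refine Finset.sum_congr rfl fun j _ => Finset.sum_congr rfl fun i _ => by ring
      _ = 0 := Finset.sum_eq_zero fun j _ => by rw [h1 j, mul_zero]
  have hpos : 0 < ∑ i : {v // v ∈ s}, c i * ∑ j, g j * m i.1 j := by
    refine Finset.sum_pos' (fun i _ => ?_) ⟨i0, Finset.mem_univ _, ?_⟩
    · by_cases hci : 0 < c i
      · exact (mul_pos hci ((hmem i).2 hci)).le
      · have h2 : ¬ 0 < ∑ j, g j * m i.1 j := fun h => hci ((hmem i).1 h)
        push Not at hci h2
        exact mul_nonneg_of_nonpos_of_nonpos hci h2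
    · exact mul_pos hi0 ((hmem i0).2 hi0)
  linarith

lemma card_halfspaces {V ι : Type} [Fintype V] [DecidableEq V] [Fintype ι] (m : V → ι → ℝ)
    (𝒜 : Finset (Finset V))
    (hA : ∀ s ∈ 𝒜, ∃ g : ι → ℝ, ∀ v, v ∈ s ↔ 0 < ∑ i, g i * m v i) :
    𝒜.card ≤ (Fintype.card V + 1) ^ Fintype.card ι := by
  have h1 := card_le_card_shatterer 𝒜
  have h2 := card_shatterer_le_sum_vcDim (𝒜 := 𝒜)
  have h3 : 𝒜.vcDim ≤ Fintype.card ι := by
    unfold vcDim
    refine Finset.sup_le fun s hs => ?_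
    exact shatters_card_le m 𝒜 hA (mem_shatterer.1 hs)
  calc 𝒜.card ≤ _ := h1
    _ ≤ _ := h2
    _ ≤ (Fintype.card V + 1) ^ 𝒜.vcDim := sum_choose_le _ _
    _ ≤ _ := Nat.pow_le_pow_right (by omega) h3

/-- version for ranges of set-valued maps -/
lemma card_range_halfspaces {V ι X : Type} [Finite V] [Fintype ι] (m : V → ι → ℝ)
    (F : X → Set V) (hF : ∀ u, ∃ g : ι → ℝ, ∀ v, v ∈ F u ↔ 0 < ∑ i, g i * m v i) :
    Nat.card (Set.range F) ≤ (Nat.card V + 1) ^ Nat.card ι := by
  classical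
  have := Fintype.ofFinite V
  set 𝒜 : Finset (Finset V) := Finset.univ.filter (fun s => (s : Set V) ∈ Set.range F) with h𝒜
  have h1 : Nat.card (Set.range F) ≤ 𝒜.card := by
    have h2 : Nat.card (Set.range F) ≤ Nat.card {s // s ∈ 𝒜} := by
      refine Nat.card_le_card_of_injective
        (fun S => ⟨(Set.toFinite S.1).toFinset, by
          rw [h𝒜, Finset.mem_filter]
          refine ⟨Finset.mem_univ _, ?_⟩
          rw [Set.Finite.coe_toFinset]
          exact S.2⟩) ?_
      intro S S' h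
      have h3 := congrArg Subtype.val h
      exact Subtype.ext ((Set.Finite.toFinset_inj).1 h3)
    simpa using h2
  refine h1.trans ?_
  rw [Nat.card_eq_fintype_card, Nat.card_eq_fintype_card]
  refine card_halfspaces m 𝒜 ?_
  intro s hs
  rw [h𝒜, Finset.mem_filter] at hs
  obtain ⟨_, u, hu⟩ := hs
  obtain ⟨g, hg⟩ := hF u
  refine ⟨g, fun v => ?_⟩
  rw [← hg v, hu, Finset.mem_coe]

end Pool.Agent.Lib_helper60.MonPP
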