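import Mathlib

/-!
# Monadic second-order logic over finite structures: monadic NP, coNP, PP, Sigma2, and MSO

Definitions only (used in the statement of the hand-in).
-/

namespace Pool.Agent.Lib_helper60.MonPP

/-- A finite nonempty relational structure with unary relations indexed by `U` and binary
relations indexed by `B`. -/
structure Str (U B : Type) where
  /-- the universe -/
  A : Type
  /-- it is finite -/
  fin : Finite A
  /-- it is nonempty -/
  ne : Nonempty A
  /-- interpretation of the unary symbols -/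
  un : U → Set A
  /-- interpretation of the binary symbols -/
  bin : B → A → A → Prop

/-- Monadic second-order formulas with `n` free element variables and `k` free set variables. -/
inductive Fm (U B : Type) : ℕ → ℕ → Type
  | eq {n k : ℕ} (i j : Fin n) : Fm U B n k
  | un {n k : ℕ} (p : U) (i : Fin n) : Fm U B n k
  | bin {n k : ℕ} (r : B) (i j : Fin n) : Fm U B n k
  | mem {n k : ℕ} (i : Fin n) (X : Fin k) : Fm U B n k
  | neg {n k : ℕ} (φ : Fm U B n k) : Fm U B n k
  | and {n k : ℕ} (φ ψ : Fm U B n k) : Fm U B n k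
  | exElt {n k : ℕ} (φ : Fm U B (n + 1) k) : Fm U B n k
  | exSet {n k : ℕ} (φ : Fm U B n (k + 1)) : Fm U B n k

/-- Satisfaction: `v` interprets the element variables and `S` the set variables. -/
def Fm.Sat {U B : Type} (M : Str U B) : {n k : ℕ} → Fm U B n k → (Fin n → M.A) →
    (Fin k → Set M.A) → Prop
  | _, _, .eq i j, v, _ => v i = v j
  | _, _, .un p i, v, _ => v i ∈ M.un p
  | _, _, .bin r i j, v, _ => M.bin r (v i) (v j)
  | _, _, .mem i X, v, S => v i ∈ S X
  | _, _, .neg φ, v, S => ¬ φ.Sat M v S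
  | _, _, .and φ ψ, v, S => φ.Sat M v S ∧ ψ.Sat M v S
  | _, _, .exElt φ, v, S => ∃ a : M.A, φ.Sat M (Fin.snoc v a) S
  | _, _, .exSet φ, v, S => ∃ T : Set M.A, φ.Sat M v (Fin.snoc S T)

/-- First-order formulas: no quantifier over sets. -/
def Fm.IsFO {U B : Type} : {n k : ℕ} → Fm U B n k → Prop
  | _, _, .eq _ _ => True
  | _, _, .un _ _ => True
  | _, _, .bin _ _ _ => True
  | _, _, .mem _ _ => True
  | _, _, .neg φ => φ.IsFO
  | _, _, .and φ ψ => φ.IsFO ∧ ψ.IsFO
  | _, _, .exElt φ => φ.IsFO
  | _, _, .exSet _ => False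

/-- `φ.Holds M S`: the formula `φ` without free element variables holds in `M` when its set
variables are interpreted by `S`. -/
def Fm.Holds {U B : Type} {k : ℕ} (φ : Fm U B 0 k) (M : Str U B) (S : Fin k → Set M.A) : Prop :=
  φ.Sat M Fin.elim0 S

/-- A property of finite structures. -/
abbrev Prty (U B : Type) : Type 1 := Str U B → Prop

/-- Monadic NP: 'there are sets `S 0, ..., S (k-1)` with `φ`', `φ` first-order. -/
def MonNP {U B : Type} (K : Prty U B) : Prop :=
  ∃ (k : ℕ) (φ : Fm U B 0 k), φ.IsFO ∧ ∀ M : Str U B, K M ↔ ∃ S : Fin k → Set M.A, φ.Holds M S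

/-- Monadic coNP: 'for all sets `S 0, ..., S (k-1)`, `φ`', `φ` first-order. -/
def MonCoNP {U B : Type} (K : Prty U B) : Prop :=
  ∃ (k : ℕ) (φ : Fm U B 0 k), φ.IsFO ∧ ∀ M : Str U B, K M ↔ ∀ S : Fin k → Set M.A, φ.Holds M S

/-- Monadic PP: 'more tuples of sets satisfy `φ` (accept) than satisfy `ψ` (reject)', with `φ`
and `ψ` first-order. -/
def MonPP {U B : Type} (K : Prty U B) : Prop :=
  ∃ (k : ℕ) (φ ψ : Fm U B 0 k), φ.IsFO ∧ ψ.IsFO ∧ ∀ M : Str U B,
    K M ↔ Nat.card {S : Fin k → Set M.A // ψ.Holds M S} <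
      Nat.card {S : Fin k → Set M.A // φ.Holds M S}

/-- Monadic Sigma2: 'there are sets `S` such that for all sets `T`, `φ`', `φ` first-order. -/
def MonSigma2 {U B : Type} (K : Prty U B) : Prop :=
  ∃ (k l : ℕ) (φ : Fm U B 0 (k + l)), φ.IsFO ∧ ∀ M : Str U B,
    K M ↔ ∃ S : Fin k → Set M.A, ∀ T : Fin l → Set M.A, φ.Holds M (Fin.append S T)

/-- Definable in monadic second-order logic, i.e. in the monadic polynomial hierarchy. -/
def MSO {U B : Type} (K : Prty U B) : Prop :=
  ∃ φ : Fm U B 0 0, ∀ M : Str U B, K M ↔ φ.Holds M Fin.elim0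

/-- The Boolean closure of a class of properties. -/
inductive BoolCl {U B : Type} (C : Prty U B → Prop) : Prty U B → Prop
  | base (K : Prty U B) : C K → BoolCl C K
  | compl (K : Prty U B) : BoolCl C K → BoolCl C (fun M => ¬ K M)
  | inter (K L : Prty U B) : BoolCl C K → BoolCl C L → BoolCl C (fun M => K M ∧ L M)

end Pool.Agent.Lib_helper60.MonPP
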