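import Pool.Agent.Lib_helper60.MonPP.Hanf

/-!
# First-order equivalence from equality of local type counts
-/

namespace Pool.Agent.Lib_helper60.MonPP

variable {U B A Γ : Type}

/-- quantifier rank -/
def Fm.qr : {n k : ℕ} → Fm U B n k → ℕ
  | _, _, .eq _ _ => 0
  | _, _, .un _ _ => 0
  | _, _, .bin _ _ _ => 0
  | _, _, .mem _ _ => 0
  | _, _, .neg φ => φ.qr
  | _, _, .and φ ψ => max φ.qr ψ.qr
  | _, _, .exElt φ => φ.qr + 1
  | _, _, .exSet φ => φ.qr + 1

/-- the structure given by a colouring -/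
def colStr [Finite A] [Nonempty A] (bin : B → A → A → Prop) (up : U → Γ → Prop) (α : A → Γ) :
    Str U B :=
  ⟨A, inferInstance, inferInstance, fun p => {x | up p (α x)}, bin⟩

/-- the sets given by a colouring -/
def colSets {k : ℕ} (sp : Fin k → Γ → Prop) (α : A → Γ) : Fin k → Set A :=
  fun X => {x | sp X (α x)}

lemma card_Wd_mono [Finite B] {m m' : ℕ} (h : m ≤ m') :
    Nat.card (Wd B m) ≤ Nat.card (Wd B m') :=
  Nat.card_le_card_of_injective (fun w : Wd B m => (⟨w.1, w.2.trans h⟩ : Wd B m'))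
    (fun w w' hw => by
      have h := congrArg Subtype.val hw
      exact Subtype.ext h)

lemma Cnt.mono {bin : B → A → A → Prop} {R R' t : ℕ} {α α' : A → Γ} (h : Cnt bin R t α α')
    (hR : R' ≤ R) : Cnt bin R' t α α' := fun m hm τ => h m (hm.trans hR) τ

theorem ef [Finite A] [Nonempty A] [Finite B] {bin : B → A → A → Prop} (hb : PInj bin)
    {up : U → Γ → Prop} {t : ℕ} {α α' : A → Γ} {n k : ℕ} (φ : Fm U B n k) (hφ : φ.IsFO)
    {sp : Fin k → Γ → Prop} (hc : Cnt bin (3 ^ φ.qr) t α α')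
    (ht : (n + φ.qr) * Nat.card (Wd B (2 * 3 ^ φ.qr)) < t) {v v' : Fin n → A}
    (hs : Sim bin (3 ^ φ.qr) α v α' v') :
    φ.Sat (colStr bin up α) v (colSets sp α) ↔ φ.Sat (colStr bin up α') v' (colSets sp α') := by
  induction φ with
  | eq i j =>
    have := hs.2 i j [] [] (by simp) (by simp)
    have h : (v i = v j ↔ v' i = v' j) := by simpa using this
    exact h
  | un p i =>
    have := hs.1 i [] (by simp)
    simp only [walk_nil, Option.map_some, Option.some.injEq] at this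
    show up p (α (v i)) ↔ up p (α' (v' i))
    rw [this]
  | bin r i j =>
    have := hs.2 i j [(r, true)] [] (by simp [Fm.qr]) (by simp)
    have e : ∀ x : A, walk bin [(r, true)] x = mv bin (r, true) x := by
      intro x
      rw [walk_cons]
      cases mv bin (r, true) x <;> rfl
    rw [e, e, walk_nil, walk_nil, mv_eq_some hb, mv_eq_some hb] at this
    have h : (bin r (v i) (v j) ↔ bin r (v' i) (v' j)) := by simpa [Edge] using this
    exact h
  | mem i X =>
    have := hs.1 i [] (by simp)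
    simp only [walk_nil, Option.map_some, Option.some.injEq] at this
    show sp X (α (v i)) ↔ sp X (α' (v' i))
    rw [this]
  | neg φ ih =>
    simp only [Fm.Sat]
    exact not_congr (ih hφ hc ht hs)
  | and φ ψ ih1 ih2 =>
    simp only [Fm.Sat]
    have h1 : φ.qr ≤ (Fm.and φ ψ).qr := le_max_left _ _
    have h2 : ψ.qr ≤ (Fm.and φ ψ).qr := le_max_right _ _
    have p1 : 3 ^ φ.qr ≤ 3 ^ (Fm.and φ ψ).qr := Nat.pow_le_pow_right (by norm_num) h1
    have p2 : 3 ^ ψ.qr ≤ 3 ^ (Fm.and φ ψ).qr := Nat.pow_le_pow_right (by norm_num) h2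
    refine and_congr (ih1 hφ.1 (hc.mono p1) (lt_of_le_of_lt ?_ ht) (hs.mono p1))
      (ih2 hφ.2 (hc.mono p2) (lt_of_le_of_lt ?_ ht) (hs.mono p2))
    · exact Nat.mul_le_mul (by omega) (card_Wd_mono (by omega))
    · exact Nat.mul_le_mul (by omega) (card_Wd_mono (by omega))
  | @exElt n k φ ih =>
    have hq : (Fm.exElt φ).qr = φ.qr + 1 := rfl
    rw [hq] at hc ht hs
    have p1 : 3 ^ φ.qr ≤ 3 ^ (φ.qr + 1) := Nat.pow_le_pow_right (by norm_num) (by omega)
    have p3 : 3 ^ (φ.qr + 1) = 3 * 3 ^ φ.qr := by ring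
    have ht' : (n + 1 + φ.qr) * Nat.card (Wd B (2 * 3 ^ φ.qr)) < t := by
      refine lt_of_le_of_lt ?_ ht
      exact Nat.mul_le_mul (by omega) (card_Wd_mono (by omega))
    have ht2 : n * Nat.card (Wd B (2 * 3 ^ φ.qr)) < t := by
      refine lt_of_le_of_lt ?_ ht'
      exact Nat.mul_le_mul (by omega) le_rfl
    rw [p3] at hs
    simp only [Fm.Sat]
    constructor
    · rintro ⟨x, hx⟩
      obtain ⟨x', hx'⟩ := extend hb hs (fun τ => hc _ p1 τ) ht2 x
      exact ⟨x', (ih hφ (hc.mono p1) ht' hx').1 hx⟩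
    · rintro ⟨x', hx'⟩
      obtain ⟨x, hx⟩ := extend hb hs.symm (fun τ => hc.symm _ p1 τ) ht2 x'
      exact ⟨x, (ih hφ (hc.mono p1) ht' hx.symm).2 hx'⟩
  | exSet φ ih => exact absurd hφ (by simp [Fm.IsFO])

/-- sentences (with set variables): only the counts matter -/
theorem ef_sentence [Finite A] [Nonempty A] [Finite B] {bin : B → A → A → Prop}
    (hb : PInj bin) {up : U → Γ → Prop} {t : ℕ} {α α' : A → Γ} {k : ℕ} (φ : Fm U B 0 k)
    (hφ : φ.IsFO) {sp : Fin k → Γ → Prop} (hc : Cnt bin (3 ^ φ.qr) t α α')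
    (ht : φ.qr * Nat.card (Wd B (2 * 3 ^ φ.qr)) < t) :
    φ.Holds (colStr bin up α) (colSets sp α) ↔ φ.Holds (colStr bin up α') (colSets sp α') := by
  refine ef hb φ hφ hc (by simpa using ht) ⟨fun i => i.elim0, fun i => i.elim0⟩

end Pool.Agent.Lib_helper60.MonPP
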