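import Pool.Agent.Lib_helper60.MonPP.EF

/-!
# The grid structures and the bound on the number of classes of right halves
-/

namespace Pool.Agent.Lib_helper60.MonPP

/-- cells of the grid: `L` square blocks of side `h` on the left, one square block on the right -/
abbrev Cell (L h : ℕ) : Type := (Fin L × Fin h × Fin h) ⊕ (Fin h × Fin h)

variable {L h : ℕ}

/-- block number -/
def blk : Cell L h → ℕ
  | .inl x => x.1
  | .inr _ => L

/-- row -/
def row : Cell L h → ℕ
  | .inl x => x.2.1
  | .inr x => x.1

/-- column inside the block -/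
def col : Cell L h → ℕ
  | .inl x => x.2.2
  | .inr x => x.2

@[simp] lemma blk_inl (x : Fin L × Fin h × Fin h) : blk (.inl x : Cell L h) = x.1 := rfl
@[simp] lemma blk_inr (x : Fin h × Fin h) : blk (.inr x : Cell L h) = L := rfl
@[simp] lemma row_inl (x : Fin L × Fin h × Fin h) : row (.inl x : Cell L h) = x.2.1 := rfl
@[simp] lemma row_inr (x : Fin h × Fin h) : row (.inr x : Cell L h) = x.1 := rfl
@[simp] lemma col_inl (x : Fin L × Fin h × Fin h) : col (.inl x : Cell L h) = x.2.2 := rfl
@[simp] lemma col_inr (x : Fin h × Fin h) : col (.inr x : Cell L h) = x.2 := rfl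

lemma cell_ext {x y : Cell L h} (h1 : blk x = blk y) (h2 : row x = row y)
    (h3 : col x = col y) : x = y := by
  rcases x with ⟨j, r, c⟩ | ⟨r, c⟩ <;> rcases y with ⟨j', r', c'⟩ | ⟨r', c'⟩
  · simp only [blk_inl, row_inl, col_inl] at h1 h2 h3
    rw [Fin.ext h1, Fin.ext h2, Fin.ext h3]
  · simp only [blk_inl, blk_inr] at h1
    have := j.2; omega
  · simp only [blk_inl, blk_inr] at h1
    have := j'.2; omega
  · simp only [row_inr, col_inr] at h2 h3
    rw [Fin.ext h2, Fin.ext h3]

lemma blk_le (x : Cell L h) : blk x ≤ L := by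
  rcases x with ⟨j, r, c⟩ | ⟨r, c⟩
  · have := j.2; simp only [blk_inl]; omega
  · simp

lemma row_lt (x : Cell L h) : row x < h := by
  rcases x with ⟨j, r, c⟩ | ⟨r, c⟩
  · exact r.2
  · exact r.2

lemma col_lt (x : Cell L h) : col x < h := by
  rcases x with ⟨j, r, c⟩ | ⟨r, c⟩
  · exact c.2
  · exact c.2

lemma exists_cell {b r c : ℕ} (hb : b ≤ L) (hr : r < h) (hc : c < h) :
    ∃ x : Cell L h, blk x = b ∧ row x = r ∧ col x = c := by
  rcases hb.lt_or_eq with hb | hb
  · exact ⟨.inl (⟨b, hb⟩, ⟨r, hr⟩, ⟨c, hc⟩), rfl, rfl, rfl⟩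
  · exact ⟨.inr (⟨r, hr⟩, ⟨c, hc⟩), hb.symm, rfl, rfl⟩

/-- the two successor relations of the grid -/
def gbin (L h : ℕ) (r : Fin 2) (x y : Cell L h) : Prop :=
  if r = 0 then
    row x = row y ∧ ((blk x = blk y ∧ col y = col x + 1) ∨
      (blk y = blk x + 1 ∧ col x + 1 = h ∧ col y = 0))
  else blk x = blk y ∧ col x = col y ∧ row y = row x + 1

lemma gbin_zero (x y : Cell L h) : gbin L h 0 x y ↔
    row x = row y ∧ ((blk x = blk y ∧ col y = col x + 1) ∨
      (blk y = blk x + 1 ∧ col x + 1 = h ∧ col y = 0)) := by simp [gbin]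

lemma gbin_one (x y : Cell L h) : gbin L h 1 x y ↔
    blk x = blk y ∧ col x = col y ∧ row y = row x + 1 := by simp [gbin]

lemma gbin_pinj : PInj (gbin L h) := by
  rintro ⟨r, b⟩ x y z hy hz
  have hx1 := blk_le x; have hx3 := col_lt x
  have hy1 := blk_le y; have hy3 := col_lt y
  have hz1 := blk_le z; have hz3 := col_lt z
  fin_cases r <;> cases b <;>
    simp only [Edge, gbin_zero, gbin_one, Fin.zero_eta, Fin.mk_one, Bool.false_eq_true,
      false_and, true_and, false_or, or_false, reduceCtorEq] at hy hz <;>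
    refine cell_ext ?_ ?_ ?_ <;> omega

/-- distance from the interface (0 on the left part) -/
def pot : Cell L h → ℕ
  | .inl _ => 0
  | .inr x => x.2 + 1

@[simp] lemma pot_inl (x : Fin L × Fin h × Fin h) : pot (.inl x : Cell L h) = 0 := rfl
@[simp] lemma pot_inr (x : Fin h × Fin h) : pot (.inr x : Cell L h) = x.2 + 1 := rfl

lemma pot_edge {g : Fin 2 × Bool} {x y : Cell L h} (hxy : Edge (gbin L h) g x y) :
    pot y ≤ pot x + 1 ∧ pot x ≤ pot y + 1 := by
  obtain ⟨r, b⟩ := g
  rcases x with ⟨j, r1, c⟩ | ⟨r1, c⟩ <;> rcases y with ⟨j', r1', c'⟩ | ⟨r1', c'⟩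
  · simp
  · have := j.2
    fin_cases r <;> cases b <;>
      simp [Edge, gbin_zero, gbin_one] at hxy ⊢ <;> omega
  · have := j'.2
    fin_cases r <;> cases b <;>
      simp [Edge, gbin_zero, gbin_one] at hxy ⊢ <;> omega
  · fin_cases r <;> cases b <;>
      simp [Edge, gbin_zero, gbin_one] at hxy ⊢ <;> omega

lemma pot_walk (w : List (Fin 2 × Bool)) : ∀ {x y : Cell L h},
    walk (gbin L h) w x = some y → pot y ≤ pot x + w.length ∧ pot x ≤ pot y + w.length := by
  induction w with
  | nil =>
    intro x y hxy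
    simp only [walk_nil, Option.some.injEq] at hxy
    subst hxy; simp
  | cons g w ih =>
    intro x y hxy
    rw [walk_cons] at hxy
    cases h' : mv (gbin L h) g x with
    | none => rw [h'] at hxy; cases hxy
    | some z =>
      rw [h'] at hxy
      have h1 := ih (x := z) hxy
      have h2 := pot_edge ((mv_eq_some gbin_pinj).1 h')
      simp only [List.length_cons]
      omega

/-- agreement on the ball implies equality of the local type -/
lemma ty_congr {B A Γ : Type} {bin : B → A → A → Prop} {m : ℕ} {α α' : A → Γ} {x : A}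
    (hag : ∀ (w : List (B × Bool)) (y : A), w.length ≤ m → walk bin w x = some y → α y = α' y) :
    ty bin m α x = ty bin m α' x := by
  rw [ty_eq_iff]
  refine ⟨fun w hw => ?_, fun w w' _ _ => Iff.rfl⟩
  cases h : walk bin w x with
  | none => rfl
  | some y => simp [hag w y hw h]

/-- colours: the bit and the memberships in the `k` sets -/
abbrev Col0 (k : ℕ) : Type := Prop × (Fin k → Prop)

/-- full colours: bit and sets, diagonal mark, first column mark, last block mark -/
abbrev Col (k : ℕ) : Type := Col0 k × Prop × Prop × Prop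

/-- the full colouring -/
def full {k : ℕ} (lam : Fin L × Fin h × Fin h → Col0 k) (β : Fin h × Fin h → Col0 k)
    (x : Cell L h) : Col k :=
  (Sum.elim lam β x, row x = col x, col x = 0, blk x = L)

/-- The class of a right half. -/
abbrev Kap (k h R t : ℕ) : Type :=
  (Fin h × Fin (2 * R) → Col0 k) × ((m : Fin (R + 1)) → Ty (Fin 2) (Col k) m → Fin (t + 1))

open Classical in
/-- the class of a right half -/
noncomputable def kap (L : ℕ) {k h : ℕ} (R t : ℕ) (β : Fin h × Fin h → Col0 k) : Kap k h R t :=
  (fun x => if hc : x.2.1 < h then β (x.1, ⟨x.2.1, hc⟩) else (False, fun _ => False),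
   fun m τ => ⟨min (Nat.card {x : Cell L h // m.1 < pot x ∧
      ty (gbin L h) m.1 (full (L := L) (fun _ => (False, fun _ => False)) β) x = τ}) t,
      by omega⟩)

lemma kap_cnt {k R t : ℕ} {β β' : Fin h × Fin h → Col0 k}
    (hk : kap L R t β = kap L R t β') (lam : Fin L × Fin h × Fin h → Col0 k) :
    Cnt (gbin L h) R t (full lam β) (full lam β') := by
  classical
  intro m hm τ
  have hk1 := congrArg Prod.fst hk
  have hk2 := congrArg Prod.snd hk
  -- agreement near the interface
  have hnear : ∀ r c : Fin h, c.1 < 2 * R → β (r, c) = β' (r, c) := by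
    intro r c hc
    have := congrFun hk1 (r, ⟨c.1, hc⟩)
    simpa [kap] using this
  -- zone 1
  have z1 : ∀ x : Cell L h, ¬ m < pot x →
      ty (gbin L h) m (full lam β) x = ty (gbin L h) m (full lam β') x := by
    intro x hx
    refine ty_congr fun w y hw hy => ?_
    have := pot_walk w hy
    rcases y with y | ⟨r, c⟩
    · rfl
    · simp only [pot_inr] at this
      have : β (r, c) = β' (r, c) := hnear r c (by omega)
      simp [full, this]
  -- zone 2
  have z2 : ∀ (β : Fin h × Fin h → Col0 k) (x : Cell L h), m < pot x →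
      ty (gbin L h) m (full lam β) x =
        ty (gbin L h) m (full (L := L) (fun _ => (False, fun _ => False)) β) x := by
    intro β x hx
    refine ty_congr fun w y hw hy => ?_
    have := pot_walk w hy
    rcases y with y | ⟨r, c⟩
    · simp only [pot_inl] at this; omega
    · rfl
  -- splitting the counts
  have hsplit : ∀ β : Fin h × Fin h → Col0 k, cnt (gbin L h) m (full lam β) τ =
      Nat.card {x : Cell L h // ¬ m < pot x ∧ ty (gbin L h) m (full lam β) x = τ} +
      Nat.card {x : Cell L h // m < pot x ∧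
        ty (gbin L h) m (full (L := L) (fun _ => (False, fun _ => False)) β) x = τ} := by
    intro β
    unfold cnt
    have e1 : Nat.card {x : Cell L h // m < pot x ∧
        ty (gbin L h) m (full (L := L) (fun _ => (False, fun _ => False)) β) x = τ} =
        Nat.card {x : Cell L h // m < pot x ∧ ty (gbin L h) m (full lam β) x = τ} := by
      congr 1
      apply congrArg
      funext x
      apply propext
      constructor
      · rintro ⟨h1, h2⟩; exact ⟨h1, (z2 β x h1).trans h2⟩
      · rintro ⟨h1, h2⟩; exact ⟨h1, (z2 β x h1).symm.trans h2⟩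
    rw [e1]
    have hu : {x : Cell L h | ty (gbin L h) m (full lam β) x = τ} =
        {x : Cell L h | ¬ m < pot x ∧ ty (gbin L h) m (full lam β) x = τ} ∪
        {x : Cell L h | m < pot x ∧ ty (gbin L h) m (full lam β) x = τ} := by
      ext x
      by_cases hx : m < pot x
      · simp [hx]
      · simp only [Set.mem_union, Set.mem_setOf_eq, hx, not_false_eq_true, true_and, false_and,
          or_false]
    have hd : Disjoint {x : Cell L h | ¬ m < pot x ∧ ty (gbin L h) m (full lam β) x = τ}
        {x : Cell L h | m < pot x ∧ ty (gbin L h) m (full lam β) x = τ} := by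
      rw [Set.disjoint_left]
      rintro x ⟨h1, _⟩ ⟨h2, _⟩
      exact h1 h2
    have := Set.ncard_union_eq hd (Set.toFinite _) (Set.toFinite _)
    rw [← hu] at this
    exact this
  rw [hsplit β, hsplit β']
  have ez1 : Nat.card {x : Cell L h // ¬ m < pot x ∧ ty (gbin L h) m (full lam β) x = τ} =
      Nat.card {x : Cell L h // ¬ m < pot x ∧ ty (gbin L h) m (full lam β') x = τ} := by
    congr 1
    apply congrArg
    funext x
    apply propext
    constructor
    · rintro ⟨h1, h2⟩; exact ⟨h1, (z1 x h1).symm.trans h2⟩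
    · rintro ⟨h1, h2⟩; exact ⟨h1, (z1 x h1).trans h2⟩
  have ez2 := congrArg Fin.val (congrFun (congrFun hk2 ⟨m, by omega⟩) τ)
  simp only [kap] at ez2
  rw [ez1]
  omega

/-- the number of classes is exponential in `h` only -/
lemma card_Kap (k h R t : ℕ) :
    Nat.card (Kap k h R t) = (Nat.card (Col0 k) ^ (2 * R)) ^ h *
      Nat.card ((m : Fin (R + 1)) → Ty (Fin 2) (Col k) m → Fin (t + 1)) := by
  have h1 : Nat.card (Fin h × Fin (2 * R) → Col0 k) = (Nat.card (Col0 k) ^ (2 * R)) ^ h := by
    rw [Nat.card_fun, Nat.card_prod (Fin h), Nat.card_fin, Nat.card_fin, ← pow_mul,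
      Nat.mul_comm h]
  rw [← h1]
  exact Nat.card_prod _ _

end Pool.Agent.Lib_helper60.MonPP
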