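import Pool.Agent.Lib_helper60.MonPP.Defs

/-!
# A Hanf-type locality lemma for structures whose binary relations are partial injections
-/

namespace Pool.Agent.Lib_helper60.MonPP

section walks

variable {B A : Type}

/-- one step along the relation `g.1`, forward (`true`) or backward (`false`) -/
def Edge (bin : B → A → A → Prop) (g : B × Bool) (x y : A) : Prop :=
  (g.2 = true ∧ bin g.1 x y) ∨ (g.2 = false ∧ bin g.1 y x)

/-- all relations are partial injections -/
def PInj (bin : B → A → A → Prop) : Prop :=
  ∀ g : B × Bool, ∀ x y z : A, Edge bin g x y → Edge bin g x z → y = z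

open Classical in
/-- the partial function of a step -/
noncomputable def mv (bin : B → A → A → Prop) (g : B × Bool) (x : A) : Option A :=
  if h : ∃ y, Edge bin g x y then some h.choose else none

lemma mv_eq_some {bin : B → A → A → Prop} (hb : PInj bin) {g : B × Bool} {x y : A} :
    mv bin g x = some y ↔ Edge bin g x y := by
  classical
  unfold mv
  by_cases h : ∃ y, Edge bin g x y
  · rw [dif_pos h]
    constructor
    · intro h'
      have := Option.some.inj h'
      rw [← this]; exact h.choose_spec
    · intro h'
      rw [hb g x _ _ h.choose_spec h']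
  · rw [dif_neg h]
    constructor
    · intro h'; cases h'
    · intro h'; exact absurd ⟨y, h'⟩ h

/-- the reversed step -/
def ginv (g : B × Bool) : B × Bool := (g.1, !g.2)

lemma edge_ginv {bin : B → A → A → Prop} {g : B × Bool} {x y : A} :
    Edge bin (ginv g) y x ↔ Edge bin g x y := by
  obtain ⟨r, b⟩ := g
  cases b <;> simp [Edge, ginv]

/-- walking along a word -/
noncomputable def walk (bin : B → A → A → Prop) : List (B × Bool) → A → Option A
  | [], x => some x
  | g :: w, x => (mv bin g x).bind (walk bin w)

@[simp] lemma walk_nil (bin : B → A → A → Prop) (x : A) : walk bin [] x = some x := rfl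

lemma walk_cons (bin : B → A → A → Prop) (g : B × Bool) (w : List (B × Bool)) (x : A) :
    walk bin (g :: w) x = (mv bin g x).bind (walk bin w) := rfl

lemma walk_append (bin : B → A → A → Prop) (w w' : List (B × Bool)) (x : A) :
    walk bin (w ++ w') x = (walk bin w x).bind (walk bin w') := by
  induction w generalizing x with
  | nil => simp
  | cons g w ih =>
    rw [List.cons_append, walk_cons, walk_cons]
    cases h : mv bin g x with
    | none => rfl
    | some y => simp [ih]

/-- the reversed word -/
def wrev (w : List (B × Bool)) : List (B × Bool) := (w.map ginv).reverse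

@[simp] lemma wrev_length (w : List (B × Bool)) : (wrev w).length = w.length := by
  simp [wrev]

lemma walk_wrev {bin : B → A → A → Prop} (hb : PInj bin) (w : List (B × Bool)) (x y : A)
    (h : walk bin w x = some y) : walk bin (wrev w) y = some x := by
  induction w generalizing x with
  | nil =>
    simp only [walk_nil, Option.some.injEq] at h
    simp [wrev, h]
  | cons g w ih =>
    rw [walk_cons] at h
    cases h' : mv bin g x with
    | none => rw [h'] at h; cases h
    | some z =>
      rw [h'] at h
      have h1 : walk bin w z = some y := h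
      have h2 := ih z h1
      have : wrev (g :: w) = wrev w ++ [ginv g] := by simp [wrev]
      rw [this, walk_append, h2]
      show walk bin [ginv g] z = some x
      rw [walk_cons]
      have h3 : mv bin (ginv g) z = some x := by
        rw [mv_eq_some hb, edge_ginv]
        exact (mv_eq_some hb).1 h'
      rw [h3]; rfl

end walks

section types

variable {B A Γ : Type}

/-- words of length at most `m` -/
abbrev Wd (B : Type) (m : ℕ) : Type := {w : List (B × Bool) // w.length ≤ m}

instance [Finite B] (m : ℕ) : Finite (Wd B m) :=
  (List.finite_length_le (B × Bool) m).to_subtype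

/-- local types of radius `m` -/
abbrev Ty (B Γ : Type) (m : ℕ) : Type := (Wd B m → Option Γ) × (Wd B m → Wd B m → Prop)

/-- the local type of radius `m` of an element, for the colouring `α` -/
noncomputable def ty (bin : B → A → A → Prop) (m : ℕ) (α : A → Γ) (x : A) : Ty B Γ m :=
  (fun w => (walk bin w.1 x).map α, fun w w' => walk bin w.1 x = walk bin w'.1 x)

/-- the number of elements with a given local type -/
noncomputable def cnt (bin : B → A → A → Prop) (m : ℕ) (α : A → Γ) (τ : Ty B Γ m) : ℕ :=
  Nat.card {x : A // ty bin m α x = τ}

/-- equality of the numbers of local types up to threshold `t`, for all radii `≤ R` -/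
def Cnt (bin : B → A → A → Prop) (R t : ℕ) (α α' : A → Γ) : Prop :=
  ∀ m ≤ R, ∀ τ : Ty B Γ m, min (cnt bin m α τ) t = min (cnt bin m α' τ) t

lemma Cnt.symm {bin : B → A → A → Prop} {R t : ℕ} {α α' : A → Γ} (h : Cnt bin R t α α') :
    Cnt bin R t α' α := fun m hm τ => (h m hm τ).symm

/-- two tuples have the same local type of radius `R` -/
def Sim (bin : B → A → A → Prop) (R : ℕ) {n : ℕ} (α : A → Γ) (v : Fin n → A)
    (α' : A → Γ) (v' : Fin n → A) : Prop :=
  (∀ i w, w.length ≤ R → (walk bin w (v i)).map α = (walk bin w (v' i)).map α') ∧
  (∀ i j w w', w.length ≤ R → w'.length ≤ R →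
    (walk bin w (v i) = walk bin w' (v j) ↔ walk bin w (v' i) = walk bin w' (v' j)))

lemma Sim.symm {bin : B → A → A → Prop} {R n : ℕ} {α α' : A → Γ} {v v' : Fin n → A}
    (h : Sim bin R α v α' v') : Sim bin R α' v' α v :=
  ⟨fun i w hw => (h.1 i w hw).symm, fun i j w w' hw hw' => (h.2 i j w w' hw hw').symm⟩

lemma Sim.mono {bin : B → A → A → Prop} {R R' n : ℕ} {α α' : A → Γ} {v v' : Fin n → A}
    (h : Sim bin R α v α' v') (hR : R' ≤ R) : Sim bin R' α v α' v' :=
  ⟨fun i w hw => h.1 i w (hw.trans hR),
   fun i j w w' hw hw' => h.2 i j w w' (hw.trans hR) (hw'.trans hR)⟩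

lemma ty_eq_iff {bin : B → A → A → Prop} {m : ℕ} {α α' : A → Γ} {x x' : A} :
    ty bin m α x = ty bin m α' x' ↔
      (∀ w : List (B × Bool), w.length ≤ m → (walk bin w x).map α = (walk bin w x').map α') ∧
      (∀ w w' : List (B × Bool), w.length ≤ m → w'.length ≤ m →
        (walk bin w x = walk bin w' x ↔ walk bin w x' = walk bin w' x')) := by
  unfold ty
  rw [Prod.mk.injEq, funext_iff, funext_iff]
  constructor
  · rintro ⟨h1, h2⟩
    refine ⟨fun w hw => h1 ⟨w, hw⟩, fun w w' hw hw' => ?_⟩
    have := congrFun (h2 ⟨w, hw⟩) ⟨w', hw'⟩
    exact iff_of_eq this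
  · rintro ⟨h1, h2⟩
    refine ⟨fun w => h1 w.1 w.2, fun w => ?_⟩
    funext w'
    exact propext (h2 w.1 w'.1 w.2 w'.2)

/-- definedness of a walk can be read off from the colours -/
lemma none_iff {α α' : A → Γ} {o o' : Option A} (h : o.map α = o'.map α') :
    o = none ↔ o' = none := by
  cases o <;> cases o' <;> simp_all

/-- The extension step: near case and far case. -/
lemma extend [Finite A] [Finite B] {bin : B → A → A → Prop} (hb : PInj bin) {R t n : ℕ}
    {α α' : A → Γ} {v v' : Fin n → A}
    (hS : Sim bin (3 * R) α v α' v')
    (hc : ∀ τ : Ty B Γ R, min (cnt bin R α τ) t = min (cnt bin R α' τ) t)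
    (ht : n * Nat.card (Wd B (2 * R)) < t) (x : A) :
    ∃ x' : A, Sim bin R α (Fin.snoc v x : Fin (n + 1) → A) α' (Fin.snoc v' x') := by
  classical
  by_cases hnear : ∃ i : Fin n, ∃ w : List (B × Bool), w.length ≤ 2 * R ∧
      walk bin w (v i) = some x
  · -- near case
    obtain ⟨i, w, hw, hwx⟩ := hnear
    have h1 := hS.1 i w (by omega)
    rw [hwx] at h1
    cases h2 : walk bin w (v' i) with
    | none => rw [h2] at h1; cases h1
    | some x' =>
      refine ⟨x', ?_, ?_⟩
      · intro j u hu
        refine Fin.lastCases ?_ (fun j => ?_) j
        · simp only [Fin.snoc_last]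
          have := hS.1 i (w ++ u) (by simp; omega)
          rw [walk_append, walk_append, hwx, h2] at this
          exact this
        · simp only [Fin.snoc_castSucc]
          exact hS.1 j u (by omega)
      · intro j1 j2 u1 u2 hu1 hu2
        have key : ∀ j : Fin (n + 1), ∀ u : List (B × Bool), u.length ≤ R →
            ∃ (k : Fin n) (u' : List (B × Bool)), u'.length ≤ 3 * R ∧
              walk bin u ((Fin.snoc v x : Fin (n + 1) → A) j) = walk bin u' (v k) ∧
              walk bin u ((Fin.snoc v' x' : Fin (n + 1) → A) j) = walk bin u' (v' k) := by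
          intro j u hu
          refine Fin.lastCases ?_ (fun j => ?_) j
          · refine ⟨i, w ++ u, by simp; omega, ?_, ?_⟩
            · rw [walk_append, hwx]; simp
            · rw [walk_append, h2]; simp
          · exact ⟨j, u, by omega, by simp, by simp⟩
        obtain ⟨k1, w1, hw1, e1, e1'⟩ := key j1 u1 hu1
        obtain ⟨k2, w2, hw2, e2, e2'⟩ := key j2 u2 hu2
        rw [e1, e2, e1', e2']
        exact hS.2 k1 k2 w1 w2 hw1 hw2
  · -- far case
    push Not at hnear
    set τ := ty bin R α x with hτ
    -- near elements
    let near (v : Fin n → A) : Set A :=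
      {z | ∃ i : Fin n, ∃ w : List (B × Bool), w.length ≤ 2 * R ∧ walk bin w (v i) = some z}
    have hcardnear : ∀ v : Fin n → A, Nat.card (near v) ≤ n * Nat.card (Wd B (2 * R)) := by
      intro v
      have : Nat.card (near v) ≤ Nat.card (Fin n × Wd B (2 * R)) := by
        let f : near v → Fin n × Wd B (2 * R) := fun z =>
          (z.2.choose, ⟨z.2.choose_spec.choose, z.2.choose_spec.choose_spec.1⟩)
        have hf : ∀ z : near v, walk bin (f z).2.1 (v (f z).1) = some z.1 := fun z =>
          z.2.choose_spec.choose_spec.2
        refine Nat.card_le_card_of_injective f ?_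
        intro z1 z2 h
        have e1 := hf z1
        rw [h, hf z2] at e1
        exact Subtype.ext (Option.some.inj e1).symm
      rwa [Nat.card_prod, Nat.card_fin] at this
    -- far element on the other side
    have hexists : ∃ x' : A, ty bin R α' x' = τ ∧ x' ∉ near v' := by
      by_contra hno
      push Not at hno
      -- all elements of type τ for α' are near
      have hle : cnt bin R α' τ ≤ Nat.card {z : A // ty bin R α z = τ ∧ z ∈ near v} := by
        unfold cnt
        have hz : ∀ z : {z : A // ty bin R α' z = τ}, ∃ i : Fin n, ∃ w : List (B × Bool),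
            w.length ≤ 2 * R ∧ walk bin w (v' i) = some z.1 := fun z => hno z.1 z.2
        have hz2 : ∀ z : {z : A // ty bin R α' z = τ}, ∃ y : A,
            walk bin (hz z).choose_spec.choose (v (hz z).choose) = some y ∧
            ty bin R α y = τ := by
          intro z
          set i := (hz z).choose
          set w := (hz z).choose_spec.choose
          have hw : w.length ≤ 2 * R := (hz z).choose_spec.choose_spec.1
          have hwz : walk bin w (v' i) = some z.1 := (hz z).choose_spec.choose_spec.2
          have h1 := hS.1 i w (by omega)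
          rw [hwz] at h1
          cases h2 : walk bin w (v i) with
          | none => rw [h2] at h1; cases h1
          | some y =>
            refine ⟨y, rfl, ?_⟩
            rw [← z.2, ty_eq_iff]
            constructor
            · intro u hu
              have := hS.1 i (w ++ u) (by simp; omega)
              rw [walk_append, walk_append, hwz, h2] at this
              exact this
            · intro u u' hu hu'
              have := hS.2 i i (w ++ u) (w ++ u') (by simp; omega) (by simp; omega)
              rw [walk_append, walk_append, walk_append, walk_append, hwz, h2] at this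
              exact this
        let f : {z : A // ty bin R α' z = τ} → {z : A // ty bin R α z = τ ∧ z ∈ near v} :=
          fun z => ⟨(hz2 z).choose, (hz2 z).choose_spec.2,
            ⟨(hz z).choose, (hz z).choose_spec.choose, (hz z).choose_spec.choose_spec.1,
              (hz2 z).choose_spec.1⟩⟩
        refine Nat.card_le_card_of_injective f ?_
        intro z1 z2 h
        have h3 : (hz2 z1).choose = (hz2 z2).choose := congrArg Subtype.val h
        have e1 := (hz2 z1).choose_spec.1
        have e2 := (hz2 z2).choose_spec.1
        rw [h3, ← e2] at e1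
        have e3 := (hS.2 _ _ _ _
          (by have := (hz z1).choose_spec.choose_spec.1; omega)
          (by have := (hz z2).choose_spec.choose_spec.1; omega)).1 e1
        rw [(hz z1).choose_spec.choose_spec.2, (hz z2).choose_spec.choose_spec.2] at e3
        exact Subtype.ext (Option.some.inj e3)
      have hlt : Nat.card {z : A // ty bin R α z = τ ∧ z ∈ near v} < cnt bin R α τ := by
        unfold cnt
        have hxn : x ∉ near v := by
          rintro ⟨i, w, hw, hwx⟩
          exact hnear i w hw hwx
        have hss : {z : A | ty bin R α z = τ ∧ z ∈ near v} ⊂ {z : A | ty bin R α z = τ} := by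
          refine ⟨fun z hz => hz.1, fun hcon => ?_⟩
          exact hxn (hcon (show x ∈ {z : A | ty bin R α z = τ} from hτ.symm)).2
        exact Set.ncard_lt_ncard hss (Set.toFinite _)
      have hle2 : Nat.card {z : A // ty bin R α z = τ ∧ z ∈ near v} ≤ Nat.card (near v) := by
        refine Nat.card_le_card_of_injective
          (fun z => (⟨z.1, z.2.2⟩ : near v)) ?_
        intro z1 z2 h
        have := congrArg Subtype.val h
        exact Subtype.ext this
      have h3 := hcardnear v
      have h4 := hc τ
      have h5 : cnt bin R α' τ < t := by omega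
      rw [min_eq_left h5.le] at h4
      have h6 : min (cnt bin R α τ) t > cnt bin R α' τ := by
        rw [gt_iff_lt, lt_min_iff]
        exact ⟨by omega, h5⟩
      omega
    obtain ⟨x', hx', hfar'⟩ := hexists
    have hfar : ∀ i : Fin n, ∀ w w' : List (B × Bool), w.length ≤ R → w'.length ≤ R →
        ∀ z, walk bin w (v i) = some z → walk bin w' x ≠ some z := by
      intro i w w' hw hw' z hz hz'
      have := walk_wrev hb w' x z hz'
      refine hnear i (w ++ wrev w') (by simp; omega) ?_
      rw [walk_append, hz]
      exact this
    have hfar2 : ∀ i : Fin n, ∀ w w' : List (B × Bool), w.length ≤ R → w'.length ≤ R →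
        ∀ z, walk bin w (v' i) = some z → walk bin w' x' ≠ some z := by
      intro i w w' hw hw' z hz hz'
      have := walk_wrev hb w' x' z hz'
      refine hfar' ⟨i, w ++ wrev w', by simp; omega, ?_⟩
      rw [walk_append, hz]
      exact this
    have htyeq := ty_eq_iff.1 (hτ.symm.trans hx'.symm)
    have hmix : ∀ i : Fin n, ∀ w w' : List (B × Bool), w.length ≤ R → w'.length ≤ R →
        (walk bin w (v i) = walk bin w' x ↔ walk bin w (v' i) = walk bin w' x') := by
      intro i w w' hw hw'
      have n1 := none_iff (hS.1 i w (by omega))
      have n2 := none_iff (htyeq.1 w' hw')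
      constructor
      · intro h
        cases h1 : walk bin w (v i) with
        | none => rw [n1.1 h1, n2.1 (h ▸ h1)]
        | some z => exact absurd (h ▸ h1) (hfar i w w' hw hw' z h1)
      · intro h
        cases h1 : walk bin w (v' i) with
        | none => rw [n1.2 h1, n2.2 (h ▸ h1)]
        | some z => exact absurd (h ▸ h1) (hfar2 i w w' hw hw' z h1)
    refine ⟨x', ?_, ?_⟩
    · intro j u hu
      refine Fin.lastCases ?_ (fun j => ?_) j
      · simp only [Fin.snoc_last]
        exact htyeq.1 u hu
      · simp only [Fin.snoc_castSucc]
        exact hS.1 j u (by omega)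
    · intro j1 j2 u1 u2 hu1 hu2
      refine Fin.lastCases ?_ (fun j1 => ?_) j1 <;> refine Fin.lastCases ?_ (fun j2 => ?_) j2
      · simp only [Fin.snoc_last]
        exact htyeq.2 u1 u2 hu1 hu2
      · simp only [Fin.snoc_last, Fin.snoc_castSucc]
        rw [eq_comm, eq_comm (a := walk bin u1 x')]
        exact hmix j2 u2 u1 hu2 hu1
      · simp only [Fin.snoc_last, Fin.snoc_castSucc]
        exact hmix j1 u1 u2 hu1 hu2
      · simp only [Fin.snoc_castSucc]
        exact hS.2 j1 j2 u1 u2 (by omega) (by omega)

end types

end Pool.Agent.Lib_helper60.MonPP
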