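import Pool.Agent.Lib_helper60.MonPP.Sigma2

/-!
# The Sigma2 property is not in the Boolean closure of monadic PP
-/

namespace Pool.Agent.Lib_helper60.MonPP

lemma arith (a b : ℕ) : ∃ h : ℕ, 0 < h ∧
    (2 ^ (h * h) + 1) ^ (a ^ h * b) + 1 < 2 ^ 2 ^ (h * h) := by
  refine ⟨a + b + 4, by omega, ?_⟩
  set h := a + b + 4 with hh
  have h1 : h < 2 ^ h := Nat.lt_two_pow_self
  have h2 : h * h + 1 ≤ 2 ^ (2 * h + 1) := by
    have : h * h < 2 ^ h * 2 ^ h := Nat.mul_lt_mul'' h1 h1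
    rw [← pow_add, ← two_mul] at this
    rw [pow_succ]; omega
  have h3 : a ^ h ≤ 2 ^ (a * h) := by
    rw [pow_mul]
    exact Nat.pow_le_pow_left (Nat.lt_two_pow_self).le h
  have h4 : b ≤ 2 ^ b := (Nat.lt_two_pow_self).le
  have h5 : (h * h + 1) * (a ^ h * b) ≤ 2 ^ (2 * h + 1 + (a * h + b)) := by
    rw [pow_add 2 (2 * h + 1) (a * h + b), pow_add 2 (a * h) b]
    exact Nat.mul_le_mul h2 (Nat.mul_le_mul h3 h4)
  have h6 : (2 ^ (h * h) + 1) ^ (a ^ h * b) ≤ 2 ^ ((h * h + 1) * (a ^ h * b)) := by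
    rw [pow_mul 2 (h * h + 1) (a ^ h * b)]
    refine Nat.pow_le_pow_left ?_ _
    rw [pow_succ]
    have : 0 < 2 ^ (h * h) := by positivity
    omega
  have h7 : (h * h + 1) * (a ^ h * b) + 1 < 2 ^ (h * h) := by
    have h8 : 2 * h + 1 + (a * h + b) + 1 < h * h := by
      have : h * h = a * h + b * h + 4 * h := by rw [hh]; ring
      have h9 : b * 1 ≤ b * h := Nat.mul_le_mul le_rfl (by omega)
      omega
    calc (h * h + 1) * (a ^ h * b) + 1 ≤ 2 ^ (2 * h + 1 + (a * h + b)) + 1 := by omega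
      _ ≤ 2 ^ (2 * h + 1 + (a * h + b) + 1) := by
        rw [pow_succ _ (2 * h + 1 + (a * h + b))]
        have : 0 < 2 ^ (2 * h + 1 + (a * h + b)) := by positivity
        omega
      _ < 2 ^ (h * h) := Nat.pow_lt_pow_right (by norm_num) h8
  calc (2 ^ (h * h) + 1) ^ (a ^ h * b) + 1 ≤ 2 ^ ((h * h + 1) * (a ^ h * b)) + 1 := by omega
    _ ≤ 2 ^ ((h * h + 1) * (a ^ h * b) + 1) := by
      rw [pow_succ 2 ((h * h + 1) * (a ^ h * b))]
      have : 0 < 2 ^ ((h * h + 1) * (a ^ h * b)) := by positivity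
      omega
    _ < 2 ^ 2 ^ (h * h) := Nat.pow_lt_pow_right (by norm_num) h7

lemma pat_surj {h : ℕ} (hh : 0 < h) (S : Set (Fin h × Fin h → Prop)) (hS : S.Nonempty) :
    S ∈ Set.range (pat KSig (2 ^ (h * h)) h hh) := by
  classical
  obtain ⟨s0, hs0⟩ := hS
  let e : (Fin h × Fin h → Prop) ≃ Fin (2 ^ (h * h)) := Finite.equivFinOfCardEq (card_V h)
  let w : Fin (2 ^ (h * h)) → (Fin h × Fin h → Prop) := fun j =>
    if e.symm j ∈ S then e.symm j else s0
  refine ⟨fun x => w x.1 x.2, ?_⟩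
  ext v
  simp only [pat]
  show KSig (gstr (2 ^ (h * h)) h hh (fun x => w x.1 x.2) v) ↔ v ∈ S
  rw [kSig_grid]
  constructor
  · rintro ⟨j, hj⟩
    have hw : w j = v := by
      funext x
      exact propext (hj x.1 x.2)
    rw [← hw]
    simp only [w]
    split_ifs with hj'
    · exact hj'
    · exact hs0
  · intro hv
    refine ⟨e v, fun r c => ?_⟩
    have : w (e v) = v := by simp [w, hv]
    show w (e v) (r, c) ↔ v (r, c)
    rw [this]

theorem kSig_not_boolCl : ¬ BoolCl MonPP KSig := by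
  classical
  intro hK
  obtain ⟨a, b, hab⟩ := patterns KSig hK
  obtain ⟨h, hh, hlt⟩ := arith a b
  have h1 := hab (2 ^ (h * h)) h hh
  have h2 : Nat.card (Set (Fin h × Fin h → Prop)) ≤
      Nat.card (Option (Set.range (pat KSig (2 ^ (h * h)) h hh))) := by
    refine Nat.card_le_card_of_injective
      (fun S => if hS : S.Nonempty then some ⟨S, pat_surj hh S hS⟩ else none) ?_
    intro S S' hSS
    by_cases h1 : S.Nonempty <;> by_cases h2 : S'.Nonempty
    · simp only [h1, h2, dif_pos, Option.some.injEq, Subtype.mk.injEq] at hSS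
      exact hSS
    · simp [h1, h2] at hSS
    · simp [h1, h2] at hSS
    · rw [Set.not_nonempty_iff_eq_empty] at h1 h2
      rw [h1, h2]
  have h3 : Nat.card (Set (Fin h × Fin h → Prop)) = 2 ^ 2 ^ (h * h) := by
    have : Nat.card (Set (Fin h × Fin h → Prop)) = 2 ^ Nat.card (Fin h × Fin h → Prop) := by
      have := Fintype.ofFinite (Fin h × Fin h → Prop)
      rw [Nat.card_eq_fintype_card, Fintype.card_set, Nat.card_eq_fintype_card]
    rw [this, card_V]
  have h4 : Nat.card (Option (Set.range (pat KSig (2 ^ (h * h)) h hh))) =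
      Nat.card (Set.range (pat KSig (2 ^ (h * h)) h hh)) + 1 := by
    rw [Finite.card_option]
  rw [h3, h4] at h2
  omega

end Pool.Agent.Lib_helper60.MonPP
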