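import Pool.Agent.Lib_helper60.MonPP.Grid
import Pool.Agent.Lib_helper60.MonPP.Halfspace

/-!
# Boolean combinations of monadic PP properties cut out few patterns on the grids
-/

namespace Pool.Agent.Lib_helper60.MonPP

/-- the grid with bits `u` on the left blocks and `v` on the last block -/
def gstr (L h : ℕ) (hh : 0 < h) (u : Fin L × Fin h × Fin h → Prop) (v : Fin h × Fin h → Prop) :
    Str (Fin 4) (Fin 2) where
  A := Cell L h
  fin := inferInstance
  ne := ⟨.inr (⟨0, hh⟩, ⟨0, hh⟩)⟩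
  un := ![{x | Sum.elim u v x}, {x | row x = col x}, {x | col x = 0}, {x | blk x = L}]
  bin := gbin L h

/-- unary predicates from full colours -/
def upred (k : ℕ) : Fin 4 → Col k → Prop :=
  ![fun γ => γ.1.1, fun γ => γ.2.1, fun γ => γ.2.2.1, fun γ => γ.2.2.2]

/-- set predicates from full colours -/
def spred (k : ℕ) : Fin k → Col k → Prop := fun i γ => γ.1.2 i

lemma holds_congr {U B : Type} {k : ℕ} {φ : Fm U B 0 k} {A : Type} {f : Finite A}
    {n : Nonempty A} {un un' : U → Set A} {bin : B → A → A → Prop} {S S' : Fin k → Set A}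
    (h1 : un = un') (h2 : S = S') :
    φ.Holds ⟨A, f, n, un, bin⟩ S ↔ φ.Holds ⟨A, f, n, un', bin⟩ S' := by
  subst h1; subst h2; rfl

variable {L h k : ℕ}

/-- the left colouring of bits and sets -/
def lcol (u : Fin L × Fin h × Fin h → Prop) (SL : Fin L × Fin h × Fin h → (Fin k → Prop)) :
    Fin L × Fin h × Fin h → Col0 k := fun x => (u x, SL x)

/-- the right colouring of bits and sets -/
def rcol (v : Fin h × Fin h → Prop) (T : Fin h × Fin h → (Fin k → Prop)) :
    Fin h × Fin h → Col0 k := fun x => (v x, T x)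

lemma holds_gstr (hh : 0 < h) (u : Fin L × Fin h × Fin h → Prop) (v : Fin h × Fin h → Prop)
    (φ : Fm (Fin 4) (Fin 2) 0 k) (SL : Fin L × Fin h × Fin h → (Fin k → Prop))
    (T : Fin h × Fin h → (Fin k → Prop)) (i : Nonempty (Cell L h)) :
    φ.Holds (gstr L h hh u v) (fun i => {x | Sum.elim SL T x i}) ↔
      φ.Holds (colStr (gbin L h) (upred k) (full (lcol u SL) (rcol v T)))
        (colSets (spred k) (full (lcol u SL) (rcol v T))) := by
  refine holds_congr ?_ ?_
  · funext p
    ext x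
    rcases x with x | x <;> fin_cases p <;> rfl
  · funext i
    ext x
    rcases x with x | x <;> rfl

/-- splitting the sets into left and right parts -/
def splitSets (L h k : ℕ) : (Fin k → Set (Cell L h)) ≃
    (Fin L × Fin h × Fin h → (Fin k → Prop)) × (Fin h × Fin h → (Fin k → Prop)) where
  toFun S := (fun x i => Sum.inl x ∈ S i, fun x i => Sum.inr x ∈ S i)
  invFun p := fun i => {x | Sum.elim p.1 p.2 x i}
  left_inv S := by
    funext i
    ext x
    rcases x with x | x <;> rfl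
  right_inv p := rfl

/-- a general counting lemma -/
lemma card_pairs {X Y K : Type} [Finite X] [Finite Y] [Fintype K] (P : X → K → Prop)
    (f : Y → K) :
    Nat.card {p : X × Y // P p.1 (f p.2)} =
      ∑ κ : K, Nat.card {x : X // P x κ} * Nat.card {y : Y // f y = κ} := by
  have e : {p : X × Y // P p.1 (f p.2)} ≃ (Σ κ : K, {x : X // P x κ} × {y : Y // f y = κ}) :=
    { toFun := fun p => ⟨f p.1.2, ⟨p.1.1, p.2⟩, ⟨p.1.2, rfl⟩⟩
      invFun := fun q => ⟨(q.2.1.1, q.2.2.1), by
        have h1 := q.2.2.2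
        have h2 := q.2.1.2
        show P q.2.1.1 (f q.2.2.1)
        rw [h1]; exact h2⟩
      left_inv := fun p => rfl
      right_inv := by
        rintro ⟨κ, ⟨x, hx⟩, ⟨y, rfl⟩⟩
        rfl }
  rw [Nat.card_congr e, Nat.card_sigma]
  exact Finset.sum_congr rfl fun κ _ => Nat.card_prod _ _

/-- threshold used for `φ` -/
noncomputable def thr (φ : Fm (Fin 4) (Fin 2) 0 k) : ℕ :=
  φ.qr * Nat.card (Wd (Fin 2) (2 * 3 ^ φ.qr)) + 1

/-- the class of a right half, for `φ` -/
noncomputable abbrev kp (L : ℕ) (φ : Fm (Fin 4) (Fin 2) 0 k) (β : Fin h × Fin h → Col0 k) :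
    Kap k h (3 ^ φ.qr) (thr φ) := kap L (3 ^ φ.qr) (thr φ) β

/-- acceptance only depends on the class of the right half -/
lemma holds_kp (φ : Fm (Fin 4) (Fin 2) 0 k) (hφ : φ.IsFO) {β β' : Fin h × Fin h → Col0 k}
    (hk : kp L φ β = kp L φ β') (lam : Fin L × Fin h × Fin h → Col0 k)
    (i : Nonempty (Cell L h)) :
    φ.Holds (colStr (gbin L h) (upred k) (full lam β)) (colSets (spred k) (full lam β)) ↔
      φ.Holds (colStr (gbin L h) (upred k) (full lam β')) (colSets (spred k) (full lam β')) :=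
  ef_sentence gbin_pinj φ hφ (kap_cnt hk lam) (by unfold thr; omega)

/-- acceptance as a relation between left data and classes -/
def Acc (φ : Fm (Fin 4) (Fin 2) 0 k) (i : Nonempty (Cell L h))
    (u : Fin L × Fin h × Fin h → Prop)
    (SL : Fin L × Fin h × Fin h → (Fin k → Prop)) (κ : Kap k h (3 ^ φ.qr) (thr φ)) : Prop :=
  ∃ β, kp L φ β = κ ∧
    φ.Holds (colStr (gbin L h) (upred k) (full (lcol u SL) β))
      (colSets (spred k) (full (lcol u SL) β))

noncomputable instance (k h R t : ℕ) : Fintype (Kap k h R t) := Fintype.ofFinite _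

/-- the number of satisfying tuples is a scalar product -/
lemma card_holds (hh : 0 < h) (φ : Fm (Fin 4) (Fin 2) 0 k) (hφ : φ.IsFO)
    (i : Nonempty (Cell L h)) (u : Fin L × Fin h × Fin h → Prop) (v : Fin h × Fin h → Prop) :
    Nat.card {S : Fin k → Set (gstr L h hh u v).A // φ.Holds (gstr L h hh u v) S} =
      ∑ κ : Kap k h (3 ^ φ.qr) (thr φ),
        Nat.card {SL : Fin L × Fin h × Fin h → (Fin k → Prop) // Acc φ i u SL κ} *
        Nat.card {T : Fin h × Fin h → (Fin k → Prop) // kp L φ (rcol v T) = κ} := by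
  rw [← card_pairs (fun SL κ => Acc φ i u SL κ) (fun T => kp L φ (rcol v T))]
  refine Nat.card_congr ?_
  refine Equiv.subtypeEquiv (splitSets L h k) ?_
  intro S
  have hS : S = (fun i => {x | Sum.elim (splitSets L h k S).1 (splitSets L h k S).2 x i}) :=
    ((splitSets L h k).left_inv S).symm
  constructor
  · intro hS'
    rw [hS] at hS'
    exact ⟨_, rfl, (holds_gstr hh u v φ _ _ i).1 hS'⟩
  · rintro ⟨β, hβ, hS'⟩
    rw [hS]
    exact (holds_gstr hh u v φ _ _ i).2 ((holds_kp φ hφ hβ _ i).1 hS')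

/-- the set of accepted right halves -/
def pat (K : Prty (Fin 4) (Fin 2)) (L h : ℕ) (hh : 0 < h) (u : Fin L × Fin h × Fin h → Prop) :
    Set (Fin h × Fin h → Prop) := {v | K (gstr L h hh u v)}

lemma pow_aux (h a1 b1 a2 b2 : ℕ) :
    a1 ^ h * b1 + a2 ^ h * b2 ≤ (max a1 a2) ^ h * (b1 + b2) := by
  rw [Nat.mul_add]
  refine Nat.add_le_add ?_ ?_
  · exact Nat.mul_le_mul (Nat.pow_le_pow_left (le_max_left _ _) _) le_rfl
  · exact Nat.mul_le_mul (Nat.pow_le_pow_left (le_max_right _ _) _) le_rfl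

lemma card_V (h : ℕ) : Nat.card (Fin h × Fin h → Prop) = 2 ^ (h * h) := by
  rw [Nat.card_fun, Nat.card_prod, Nat.card_fin, Nat.card_eq_fintype_card, Fintype.card_prop]

theorem patterns_base (K : Prty (Fin 4) (Fin 2)) (hK : MonPP K) : ∃ a b : ℕ,
    ∀ (L h : ℕ) (hh : 0 < h), Nat.card (Set.range (pat K L h hh)) ≤
      (2 ^ (h * h) + 1) ^ (a ^ h * b) := by
  obtain ⟨k, φ, ψ, hφ, hψ, hK⟩ := hK
  refine ⟨max (Nat.card (Col0 k) ^ (2 * 3 ^ φ.qr)) (Nat.card (Col0 k) ^ (2 * 3 ^ ψ.qr)),
    Nat.card ((m : Fin (3 ^ φ.qr + 1)) → Ty (Fin 2) (Col k) m → Fin (thr φ + 1)) +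
    Nat.card ((m : Fin (3 ^ ψ.qr + 1)) → Ty (Fin 2) (Col k) m → Fin (thr ψ + 1)), ?_⟩
  intro L h hh
  have i : Nonempty (Cell L h) := (gstr L h hh (fun _ => False) (fun _ => False)).ne
  refine (card_range_halfspaces
    (ι := Kap k h (3 ^ φ.qr) (thr φ) ⊕ Kap k h (3 ^ ψ.qr) (thr ψ))
    (fun v => Sum.elim
      (fun κ => (Nat.card {T : Fin h × Fin h → (Fin k → Prop) // kp L φ (rcol v T) = κ} : ℝ))
      (fun κ => (Nat.card {T : Fin h × Fin h → (Fin k → Prop) // kp L ψ (rcol v T) = κ} : ℝ)))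
    (pat K L h hh) ?_).trans ?_
  · intro u
    refine ⟨Sum.elim
      (fun κ => (Nat.card {SL : Fin L × Fin h × Fin h → (Fin k → Prop) //
        Acc φ i u SL κ} : ℝ))
      (fun κ => -(Nat.card {SL : Fin L × Fin h × Fin h → (Fin k → Prop) //
        Acc ψ i u SL κ} : ℝ)), fun v => ?_⟩
    show K (gstr L h hh u v) ↔ _
    rw [hK, card_holds hh φ hφ i, card_holds hh ψ hψ i, Fintype.sum_sum_type]
    simp only [Sum.elim_inl, Sum.elim_inr, neg_mul, Finset.sum_neg_distrib]
    rw [← sub_eq_add_neg, sub_pos]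
    constructor
    · intro h1
      exact_mod_cast h1
    · intro h1
      exact_mod_cast h1
  · rw [card_V]
    refine Nat.pow_le_pow_right (by positivity) ?_
    rw [Nat.card_sum, card_Kap, card_Kap]
    exact pow_aux _ _ _ _ _

theorem patterns (K : Prty (Fin 4) (Fin 2)) (hK : BoolCl MonPP K) : ∃ a b : ℕ,
    ∀ (L h : ℕ) (hh : 0 < h), Nat.card (Set.range (pat K L h hh)) ≤
      (2 ^ (h * h) + 1) ^ (a ^ h * b) := by
  induction hK with
  | base K hK => exact patterns_base K hK
  | compl K _ ih =>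
    obtain ⟨a, b, hab⟩ := ih
    refine ⟨a, b, fun L h hh => le_trans ?_ (hab L h hh)⟩
    refine Nat.card_le_card_of_injective
      (fun S : Set.range (pat (fun M => ¬ K M) L h hh) => (⟨S.1ᶜ, by
        obtain ⟨u, hu⟩ := S.2
        refine ⟨u, ?_⟩
        rw [← hu]
        ext v
        simp only [pat, Set.mem_compl_iff]
        show K (gstr L h hh u v) ↔ ¬ ¬ K (gstr L h hh u v)
        tauto⟩ : Set.range (pat K L h hh))) ?_
    intro S S' hS
    have h1 := congrArg Subtype.val hS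
    exact Subtype.ext (compl_injective h1)
  | inter K1 K2 _ _ ih1 ih2 =>
    obtain ⟨a1, b1, h1⟩ := ih1
    obtain ⟨a2, b2, h2⟩ := ih2
    refine ⟨max a1 a2, b1 + b2, fun L h hh => ?_⟩
    have hle : Nat.card (Set.range (pat (fun M => K1 M ∧ K2 M) L h hh)) ≤
        Nat.card (Set.range (pat K1 L h hh) × Set.range (pat K2 L h hh)) := by
      refine Nat.card_le_card_of_injective
        (fun S : Set.range (pat (fun M => K1 M ∧ K2 M) L h hh) =>
          ((⟨pat K1 L h hh S.2.choose, ⟨_, rfl⟩⟩ : Set.range (pat K1 L h hh)),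
           (⟨pat K2 L h hh S.2.choose, ⟨_, rfl⟩⟩ : Set.range (pat K2 L h hh)))) ?_
      intro S S' hS
      have e1 : pat K1 L h hh S.2.choose = pat K1 L h hh S'.2.choose :=
        congrArg Subtype.val (congrArg Prod.fst hS)
      have e2 : pat K2 L h hh S.2.choose = pat K2 L h hh S'.2.choose :=
        congrArg Subtype.val (congrArg Prod.snd hS)
      have e3 : ∀ u, pat (fun M => K1 M ∧ K2 M) L h hh u =
          pat K1 L h hh u ∩ pat K2 L h hh u := fun u => rfl
      refine Subtype.ext ?_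
      rw [← S.2.choose_spec, ← S'.2.choose_spec, e3, e3, e1, e2]
    refine hle.trans ?_
    rw [Nat.card_prod]
    refine (Nat.mul_le_mul (h1 L h hh) (h2 L h hh)).trans ?_
    rw [← pow_add]
    exact Nat.pow_le_pow_right (by positivity) (pow_aux _ _ _ _ _)

end Pool.Agent.Lib_helper60.MonPP
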