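import Pool.Agent.Lib_helper60.MonPP.Patterns

/-!
# A monadic Sigma2 property with many patterns on the grids
-/

namespace Pool.Agent.Lib_helper60.MonPP

section connectives

variable {U B : Type} {n k : ℕ}

/-- universal element quantifier -/
def fAll (φ : Fm U B (n + 1) k) : Fm U B n k := .neg (.exElt (.neg φ))
/-- implication -/
def fImp (φ ψ : Fm U B n k) : Fm U B n k := .neg (.and φ (.neg ψ))
/-- equivalence -/
def fIff (φ ψ : Fm U B n k) : Fm U B n k := .and (fImp φ ψ) (fImp ψ φ)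

lemma sat_fAll (M : Str U B) (φ : Fm U B (n + 1) k) (v : Fin n → M.A) (S : Fin k → Set M.A) :
    (fAll φ).Sat M v S ↔ ∀ a : M.A, φ.Sat M (Fin.snoc v a) S := by
  simp [fAll, Fm.Sat]

lemma sat_fImp (M : Str U B) (φ ψ : Fm U B n k) (v : Fin n → M.A) (S : Fin k → Set M.A) :
    (fImp φ ψ).Sat M v S ↔ (φ.Sat M v S → ψ.Sat M v S) := by
  simp [fImp, Fm.Sat]

lemma sat_fIff (M : Str U B) (φ ψ : Fm U B n k) (v : Fin n → M.A) (S : Fin k → Set M.A) :
    (fIff φ ψ).Sat M v S ↔ (φ.Sat M v S ↔ ψ.Sat M v S) := by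
  simp only [fIff, Fm.Sat, sat_fImp]
  tauto

end connectives

/-- closed under the relation `b`: neighbours agree -/
def fClosed (b : Fin 2) (X : Fin 4) : Fm (Fin 4) (Fin 2) 0 4 :=
  fAll (fAll (fImp (.bin b 0 1) (fIff (.mem 0 X) (.mem 1 X))))

/-- closed under horizontal steps inside the blocks -/
def fClosedIn (X : Fin 4) : Fm (Fin 4) (Fin 2) 0 4 :=
  fAll (fAll (fImp (.bin 0 0 1) (fImp (.neg (.un 2 1)) (fIff (.mem 0 X) (.mem 1 X)))))

/-- exactly one element in the first column of the last block -/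
def fOne (X : Fin 4) : Fm (Fin 4) (Fin 2) 0 4 :=
  .exElt (.and (.un 3 0) (.and (.un 2 0) (.and (.mem 0 X)
    (fAll (fImp (.un 3 1) (fImp (.un 2 1) (fImp (.mem 1 X) (.eq 1 0))))))))

/-- on the diagonal the sets agree -/
def fDiag (W C : Fin 4) : Fm (Fin 4) (Fin 2) 0 4 :=
  fAll (fImp (.un 1 0) (fIff (.mem 0 W) (.mem 0 C)))

/-- equality of the bits at the marked places -/
def fBits : Fm (Fin 4) (Fin 2) 0 4 :=
  fAll (fAll (fImp (.mem 0 0) (fImp (.mem 0 1) (fImp (.mem 0 3) (fImp (.un 3 1)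
    (fImp (.mem 1 1) (fImp (.mem 1 3) (fIff (.un 0 0) (.un 0 1)))))))))

/-- the first-order matrix -/
def fMat : Fm (Fin 4) (Fin 2) 0 4 :=
  .and (.exElt (.mem 0 0)) (.and (fAll (fImp (.mem 0 0) (.neg (.un 3 0))))
    (.and (fClosed 1 0) (.and (fClosedIn 0)
      (fImp (fClosed 0 1) (fImp (fOne 1) (fImp (fClosed 0 2) (fImp (fOne 2)
        (fImp (fClosed 1 3) (fImp (fDiag 3 2) fBits)))))))))

lemma fMat_isFO : fMat.IsFO := by
  simp [fMat, fBits, fDiag, fOne, fClosedIn, fClosed, fAll, fImp, fIff, Fm.IsFO]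

/-- closed under a relation -/
def Closed (M : Str (Fin 4) (Fin 2)) (b : Fin 2) (X : Set M.A) : Prop :=
  ∀ x y : M.A, M.bin b x y → (x ∈ X ↔ y ∈ X)

/-- exactly one element in the first column of the last block -/
def One (M : Str (Fin 4) (Fin 2)) (X : Set M.A) : Prop :=
  ∃ x : M.A, x ∈ M.un 3 ∧ x ∈ M.un 2 ∧ x ∈ X ∧
    ∀ y : M.A, y ∈ M.un 3 → y ∈ M.un 2 → y ∈ X → y = x

/-- the matrix, semantically -/
def Mat (M : Str (Fin 4) (Fin 2)) (B R C W : Set M.A) : Prop :=
  (∃ x, x ∈ B) ∧ (∀ x, x ∈ B → x ∉ M.un 3) ∧ Closed M 1 B ∧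
  (∀ x y : M.A, M.bin 0 x y → y ∉ M.un 2 → (x ∈ B ↔ y ∈ B)) ∧
  (Closed M 0 R → One M R → Closed M 0 C → One M C → Closed M 1 W →
    (∀ x : M.A, x ∈ M.un 1 → (x ∈ W ↔ x ∈ C)) →
    ∀ y z : M.A, y ∈ B → y ∈ R → y ∈ W → z ∈ M.un 3 → z ∈ R → z ∈ W →
      (y ∈ M.un 0 ↔ z ∈ M.un 0))

lemma holds_fMat (M : Str (Fin 4) (Fin 2)) (S : Fin 4 → Set M.A) :
    fMat.Holds M S ↔ Mat M (S 0) (S 1) (S 2) (S 3) := by
  have e1 : ∀ x y : M.A, (Fin.snoc (Fin.snoc Fin.elim0 x : Fin 1 → M.A) y : Fin 2 → M.A) 0 = x :=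
    fun x y => rfl
  have e2 : ∀ x y : M.A, (Fin.snoc (Fin.snoc Fin.elim0 x : Fin 1 → M.A) y : Fin 2 → M.A) 1 = y :=
    fun x y => rfl
  have e3 : ∀ x : M.A, (Fin.snoc Fin.elim0 x : Fin 1 → M.A) 0 = x := fun x => rfl
  unfold Fm.Holds fMat Mat
  simp only [Fm.Sat, fClosed, fClosedIn, fOne, fDiag, fBits, sat_fAll, sat_fImp, sat_fIff, e1, e2,
    e3, Closed, One]

/-- The property: some union of left blocks agrees with the last block. -/
def KSig (M : Str (Fin 4) (Fin 2)) : Prop :=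
  ∃ B : Set M.A, ∀ R C W : Set M.A, Mat M B R C W

lemma kSig_monSigma2 : MonSigma2 KSig := by
  refine ⟨1, 3, fMat, fMat_isFO, fun M => ?_⟩
  constructor
  · rintro ⟨B, hB⟩
    refine ⟨fun _ => B, fun T => ?_⟩
    rw [holds_fMat]
    exact hB (T 0) (T 1) (T 2)
  · rintro ⟨S, hS⟩
    refine ⟨S 0, fun R C W => ?_⟩
    have := hS ![R, C, W]
    rw [holds_fMat] at this
    exact this

lemma kSig_MSO : MSO KSig := by
  refine ⟨.exSet (.neg (.exSet (.exSet (.exSet (.neg fMat))))), fun M => ?_⟩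
  have e0 : ∀ (S : Fin 0 → Set M.A) (B R C W : Set M.A),
      fMat.Sat M Fin.elim0 (Fin.snoc (Fin.snoc (Fin.snoc (Fin.snoc S B : Fin 1 → Set M.A) R :
        Fin 2 → Set M.A) C : Fin 3 → Set M.A) W : Fin 4 → Set M.A) ↔ Mat M B R C W := by
    intro S B R C W
    exact holds_fMat M _
  unfold Fm.Holds KSig
  simp only [Fm.Sat, e0]
  constructor
  · rintro ⟨B, hB⟩
    exact ⟨B, fun ⟨R, C, W, h⟩ => h (hB R C W)⟩
  · rintro ⟨B, hB⟩
    refine ⟨B, fun R C W => ?_⟩
    by_contra h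
    exact hB ⟨R, C, W, h⟩

section grid

variable {L h : ℕ}

lemma closedH_iff (hh : 0 < h) {u v} {X : Set (Cell L h)}
    (hX : Closed (gstr L h hh u v) 0 X) {x y : Cell L h} (hxy : row x = row y) :
    x ∈ X ↔ y ∈ X := by
  have key : ∀ (b c : ℕ) (x x0 : Cell L h), blk x = b → col x = c → blk x0 = 0 → col x0 = 0 →
      row x = row x0 → (x ∈ X ↔ x0 ∈ X) := by
    intro b
    induction b with
    | zero =>
      intro c
      induction c with
      | zero =>
        intro x x0 h1 h2 h3 h4 h5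
        rw [cell_ext (h1.trans h3.symm) h5 (h2.trans h4.symm)]
      | succ c ihc =>
        intro x x0 h1 h2 h3 h4 h5
        have hc := col_lt x
        have hr := row_lt x
        obtain ⟨z, hz1, hz2, hz3⟩ := exists_cell (L := L) (h := h) (b := 0) (r := row x) (c := c)
          (by omega) hr (by omega)
        have h6 : (z ∈ X ↔ x ∈ X) := hX z x ((gbin_zero z x).2 ⟨hz2, Or.inl ⟨by omega, by omega⟩⟩)
        rw [← h6]
        exact ihc z x0 hz1 hz3 h3 h4 (by omega)
    | succ b ihb =>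
      intro c
      induction c with
      | zero =>
        intro x x0 h1 h2 h3 h4 h5
        have hb := blk_le x
        have hr := row_lt x
        obtain ⟨z, hz1, hz2, hz3⟩ := exists_cell (L := L) (h := h) (b := b) (r := row x)
          (c := h - 1) (by omega) hr (by omega)
        have h6 : (z ∈ X ↔ x ∈ X) := hX z x ((gbin_zero z x).2
          ⟨hz2, Or.inr ⟨by omega, by omega, by omega⟩⟩)
        rw [← h6]
        exact ihb (h - 1) z x0 hz1 hz3 h3 h4 (by omega)
      | succ c ihc =>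
        intro x x0 h1 h2 h3 h4 h5
        have hb := blk_le x
        have hc := col_lt x
        have hr := row_lt x
        obtain ⟨z, hz1, hz2, hz3⟩ := exists_cell (L := L) (h := h) (b := b + 1) (r := row x)
          (c := c) (by omega) hr (by omega)
        have h6 : (z ∈ X ↔ x ∈ X) := hX z x ((gbin_zero z x).2 ⟨hz2, Or.inl ⟨by omega, by omega⟩⟩)
        rw [← h6]
        exact ihc z x0 hz1 hz3 h3 h4 (by omega)
  obtain ⟨x0, h1, h2, h3⟩ := exists_cell (L := L) (h := h) (b := 0) (r := row x) (c := 0)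
    (by omega) (row_lt x) hh
  rw [key _ _ x x0 rfl rfl h1 h3 h2.symm, key _ _ y x0 rfl rfl h1 h3 (by omega)]

lemma closedV_iff (hh : 0 < h) {u v} {X : Set (Cell L h)}
    (hX : Closed (gstr L h hh u v) 1 X) {x y : Cell L h} (hb : blk x = blk y)
    (hc : col x = col y) : x ∈ X ↔ y ∈ X := by
  have key : ∀ (r : ℕ) (x x0 : Cell L h), row x = r → row x0 = 0 → blk x = blk x0 →
      col x = col x0 → (x ∈ X ↔ x0 ∈ X) := by
    intro r
    induction r with
    | zero =>
      intro x x0 h1 h2 h3 h4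
      rw [cell_ext h3 (h1.trans h2.symm) h4]
    | succ r ih =>
      intro x x0 h1 h2 h3 h4
      have hc := col_lt x
      have hr := row_lt x
      have hb := blk_le x
      obtain ⟨z, hz1, hz2, hz3⟩ := exists_cell (L := L) (h := h) (b := blk x) (r := r)
        (c := col x) hb (by omega) hc
      have h6 : (z ∈ X ↔ x ∈ X) := hX z x ((gbin_one z x).2 ⟨hz1, hz3, by omega⟩)
      rw [← h6]
      exact ih z x0 hz2 h2 (by omega) (by omega)
  obtain ⟨x0, h1, h2, h3⟩ := exists_cell (L := L) (h := h) (b := blk x) (r := 0) (c := col x)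
    (blk_le x) hh (col_lt x)
  rw [key _ x x0 rfl h2 h1.symm h3.symm, key _ y x0 rfl h2 (by omega) (by omega)]

lemma closedIn_iff (hh : 0 < h) {u v} {X : Set (Cell L h)}
    (hV : Closed (gstr L h hh u v) 1 X)
    (hX : ∀ x y : Cell L h, gbin L h 0 x y → ¬ col y = 0 → (x ∈ X ↔ y ∈ X))
    {x y : Cell L h} (hb : blk x = blk y) : x ∈ X ↔ y ∈ X := by
  have key : ∀ (c : ℕ) (x x0 : Cell L h), col x = c → col x0 = 0 → blk x = blk x0 →
      (x ∈ X ↔ x0 ∈ X) := by
    intro c
    induction c with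
    | zero =>
      intro x x0 h1 h2 h3
      exact closedV_iff hh hV h3 (by omega)
    | succ c ih =>
      intro x x0 h1 h2 h3
      have hc := col_lt x
      have hr := row_lt x
      have hb := blk_le x
      obtain ⟨z, hz1, hz2, hz3⟩ := exists_cell (L := L) (h := h) (b := blk x) (r := row x)
        (c := c) hb hr (by omega)
      have h6 : (z ∈ X ↔ x ∈ X) := hX z x ((gbin_zero z x).2
        ⟨hz2, Or.inl ⟨by omega, by omega⟩⟩) (by omega)
      rw [← h6]
      exact ih z x0 hz3 h2 (by omega)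
  obtain ⟨x0, h1, h2, h3⟩ := exists_cell (L := L) (h := h) (b := blk x) (r := 0) (c := 0)
    (blk_le x) hh hh
  rw [key _ x x0 rfl h3 h1.symm, key _ y x0 rfl h3 (by omega)]

lemma line_iff (hh : 0 < h) {u v} {X : Set (Cell L h)}
    (hX : Closed (gstr L h hh u v) 0 X) (h1 : One (gstr L h hh u v) X) :
    ∃ r : ℕ, ∀ x : Cell L h, x ∈ X ↔ row x = r := by
  obtain ⟨a, ha3, ha2, haX, ha⟩ := h1
  have ha3' : blk (a : Cell L h) = L := ha3
  have ha2' : col (a : Cell L h) = 0 := ha2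
  refine ⟨row (a : Cell L h), fun x => ⟨fun hx => ?_, fun hx => ?_⟩⟩
  · obtain ⟨z, hz1, hz2, hz3⟩ := exists_cell (L := L) (h := h) (b := L) (r := row x) (c := 0)
      le_rfl (row_lt x) hh
    have h2 : z ∈ X := (closedH_iff hh hX hz2).2 hx
    have h3 : z = a := ha z hz1 hz3 h2
    rw [← h3, hz2]
  · exact (closedH_iff hh hX hx).2 haX

/-- The meaning of the property on the grids. -/
theorem kSig_grid (hh : 0 < h) (u : Fin L × Fin h × Fin h → Prop) (v : Fin h × Fin h → Prop) :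
    KSig (gstr L h hh u v) ↔ ∃ j : Fin L, ∀ r c : Fin h, (u (j, r, c) ↔ v (r, c)) := by
  constructor
  · rintro ⟨B, hB⟩
    obtain ⟨⟨x0, hx0⟩, hB2, hB3, hB4, _⟩ := hB ∅ ∅ ∅
    have hx0' : blk (x0 : Cell L h) ≠ L := hB2 x0 hx0
    have hlt : blk (x0 : Cell L h) < L := lt_of_le_of_ne (blk_le x0) hx0'
    refine ⟨⟨blk (x0 : Cell L h), hlt⟩, fun r c => ?_⟩
    obtain ⟨_, _, _, _, h5⟩ := hB {x : Cell L h | row x = r} {x : Cell L h | row x = c}
      {x : Cell L h | col x = c}
    have hclosed : ∀ r : ℕ, Closed (gstr L h hh u v) 0 {x : Cell L h | row x = r} := by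
      intro r x y hxy
      have := ((gbin_zero x y).1 hxy).1
      show row (x : Cell L h) = r ↔ row (y : Cell L h) = r
      omega
    have hone : ∀ r : Fin h, One (gstr L h hh u v) {x : Cell L h | row x = r} := by
      intro r
      refine ⟨(.inr (r, ⟨0, hh⟩) : Cell L h), rfl, rfl, rfl, ?_⟩
      intro y hy1 hy2 hy3
      have hy1' : blk (y : Cell L h) = L := hy1
      have hy2' : col (y : Cell L h) = 0 := hy2
      have hy3' : row (y : Cell L h) = r := hy3
      exact cell_ext hy1' hy3' hy2'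
    have hW : Closed (gstr L h hh u v) 1 {x : Cell L h | col x = c} := by
      intro x y hxy
      have := ((gbin_one x y).1 hxy).2.1
      show col (x : Cell L h) = c ↔ col (y : Cell L h) = c
      omega
    have hD : ∀ x : Cell L h, row x = col x → (col x = c ↔ row x = c) := by
      intro x hx; omega
    have hy : (.inl (⟨blk (x0 : Cell L h), hlt⟩, r, c) : Cell L h) ∈ B :=
      (closedIn_iff hh hB3 hB4 (x := (x0 : Cell L h))
        (y := (.inl (⟨blk (x0 : Cell L h), hlt⟩, r, c) : Cell L h)) rfl).1 hx0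
    exact h5 (hclosed r) (hone r) (hclosed c) (hone c) hW hD
      (.inl (⟨blk (x0 : Cell L h), hlt⟩, r, c) : Cell L h) (.inr (r, c) : Cell L h)
      hy rfl rfl rfl rfl rfl
  · rintro ⟨j, hj⟩
    refine ⟨{x : Cell L h | blk x = j}, fun R C W => ⟨?_, ?_, ?_, ?_, ?_⟩⟩
    · exact ⟨(.inl (j, ⟨0, hh⟩, ⟨0, hh⟩) : Cell L h), rfl⟩
    · intro x hx hx3
      have h1 : blk (x : Cell L h) = j := hx
      have h2 : blk (x : Cell L h) = L := hx3
      have := j.2
      omega
    · intro x y hxy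
      have := ((gbin_one x y).1 hxy).1
      show blk (x : Cell L h) = j ↔ blk (y : Cell L h) = j
      omega
    · intro x y hxy hy
      have h1 := ((gbin_zero x y).1 hxy).2
      have hy' : ¬ col (y : Cell L h) = 0 := hy
      show blk (x : Cell L h) = j ↔ blk (y : Cell L h) = j
      omega
    · intro hR1 hR2 hC1 hC2 hW hD y z hyB hyR hyW hz3 hzR hzW
      obtain ⟨r, hr⟩ := line_iff hh hR1 hR2
      obtain ⟨c, hc⟩ := line_iff hh hC1 hC2
      have hWc : ∀ x : Cell L h, x ∈ W → col x = c := by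
        intro x hx
        obtain ⟨d, hd1, hd2, hd3⟩ := exists_cell (L := L) (h := h) (b := blk x) (r := col x)
          (c := col x) (blk_le x) (col_lt x) (col_lt x)
        have h1 : d ∈ W := (closedV_iff hh hW hd1 hd3).2 hx
        have h2 : row d = col d := by omega
        have h3 : d ∈ C := (hD d h2).1 h1
        have h4 := (hc d).1 h3
        omega
      have hyb : blk (y : Cell L h) = j := hyB
      have hzb : blk (z : Cell L h) = L := hz3
      have hyr : row (y : Cell L h) = r := (hr y).1 hyR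
      have hzr : row (z : Cell L h) = r := (hr z).1 hzR
      have hyc : col (y : Cell L h) = c := hWc y hyW
      have hzc : col (z : Cell L h) = c := hWc z hzW
      have hrlt : r < h := by have := row_lt (y : Cell L h); omega
      have hclt : c < h := by have := col_lt (y : Cell L h); omega
      have ey : y = (.inl (j, ⟨r, hrlt⟩, ⟨c, hclt⟩) : Cell L h) := cell_ext hyb hyr hyc
      have ez : z = (.inr (⟨r, hrlt⟩, ⟨c, hclt⟩) : Cell L h) := cell_ext hzb hzr hzc
      rw [ey, ez]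
      exact hj ⟨r, hrlt⟩ ⟨c, hclt⟩

end grid

end Pool.Agent.Lib_helper60.MonPP
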